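import Mathlib

set_option autoImplicit false
set_option synthInstance.maxSize 100000
set_option maxRecDepth 100000

namespace Pool.Agent.Lead.Cov4

def I (b : Bool) : ℤ := if b then 1 else 0

lemma key {m : ℕ} (T L : Fin m → ℤ) (h0 : ∀ j, 0 ≤ T j ∧ (T j = 0 → (4:ℤ) ∣ L j))
    (hT : ∑ j, T j = 0) : (4:ℤ) ∣ ∑ j, L j := by
  have := (Finset.sum_eq_zero_iff_of_nonneg (fun j _ => (h0 j).1)).1 hT
  exact Finset.dvd_sum (fun j hj => (h0 j).2 (this j hj))

lemma petA : ∀ x0 x1 x2 x3 x4 x5 x6 x7 x8 x9 x10 x11 x12 x13 x14 : Bool, (xor x0 (xor x4 (xor x10 false))) = false → (xor x0 (xor x1 (xor x11 false))) = false → (xor x1 (xor x2 (xor x12 false))) = false → (xor x2 (xor x3 (xor x13 false))) = false → (xor x3 (xor x4 (xor x14 false))) = false → (xor x5 (xor x8 (xor x10 false))) = false → (xor x6 (xor x9 (xor x11 false))) = false → (xor x5 (xor x7 (xor x12 false))) = false → (xor x6 (xor x8 (xor x13 false))) = false → (xor x7 (xor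 x9 (xor x14 false))) = false →
    0 ≤ (2) * I x0 + (2) * I x1 + (2) * I x2 + (2) * I x3 + (2) * I x4 + (2) * I x5 + (2) * I x6 + (2) * I x7 + (2) * I x8 + (2) * I x9 + (-2) * I x10 + (-2) * I x11 + (-2) * I x12 + (-2) * I x13 + (-2) * I x14 ∧ ((2) * I x0 + (2) * I x1 + (2) * I x2 + (2) * I x3 + (2) * I x4 + (2) * I x5 + (2) * I x6 + (2) * I x7 + (2) * I x8 + (2) * I x9 + (-2) * I x10 + (-2) * I x11 + (-2) * I x12 + (-2) * I x13 + (-2) * I x14 = 0 → (4:ℤ) ∣ I x10 + I x11 + I x12 + I x13 + I x14) := by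
  decide +kernel

lemma noA {m : ℕ} (x0 x1 x2 x3 x4 x5 x6 x7 x8 x9 x10 x11 x12 x13 x14 : Fin m → Bool)
    (h0 : ∀ j, (xor (x0 j) (xor (x4 j) (xor (x10 j) false))) = false) (h1 : ∀ j, (xor (x0 j) (xor (x1 j) (xor (x11 j) false))) = false) (h2 : ∀ j, (xor (x1 j) (xor (x2 j) (xor (x12 j) false))) = false) (h3 : ∀ j, (xor (x2 j) (xor (x3 j) (xor (x13 j) false))) = false) (h4 : ∀ j, (xor (x3 j) (xor (x4 j) (xor (x14 j) false))) = false) (h5 : ∀ j, (xor (x5 j) (xor (x8 j) (xor (x10 j) false))) = false) (h6 : ∀ j, (xor (x6 j) (xor (x9 j) (xor (x11 j) false))) = false) (h7 : ∀ j, (xor (x5 j) (xor (x7 j) (xor (x12 j) false))) = false) (h8 : ∀ j, (xor (x6 j) (xor (x8 j) (xor (x13 j) false))) = false) (h9 : ∀ j, (xor (x7 j) (xor (x9 j) (xor (x14 j) false))) = false)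
    (s0 : ∑ j, I (x0 j) = 1) (s1 : ∑ j, I (x1 j) = 1) (s2 : ∑ j, I (x2 j) = 1) (s3 : ∑ j, I (x3 j) = 1) (s4 : ∑ j, I (x4 j) = 1) (s5 : ∑ j, I (x5 j) = 1) (s6 : ∑ j, I (x6 j) = 1) (s7 : ∑ j, I (x7 j) = 1) (s8 : ∑ j, I (x8 j) = 1) (s9 : ∑ j, I (x9 j) = 1) (s10 : ∑ j, I (x10 j) = 2) (s11 : ∑ j, I (x11 j) = 2) (s12 : ∑ j, I (x12 j) = 2) (s13 : ∑ j, I (x13 j) = 2) (s14 : ∑ j, I (x14 j) = 2) : False := by
  have h := key (fun j => (2) * I (x0 j) + (2) * I (x1 j) + (2) * I (x2 j) + (2) * I (x3 j) + (2) * I (x4 j) + (2) * I (x5 j) + (2) * I (x6 j) + (2) * I (x7 j) + (2) * I (x8 j) + (2) * I (x9 j) + (-2) * I (x10 j) + (-2) * I (x11 j) + (-2) * I (x12 j) + (-2) * I (x13 j) + (-2) * I (x14 j)) (fun j => I (x10 j) + I (x11 j) + I (x12 j) + I (x13 j) + I (x14 j))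
    (fun j => petA (x0 j) (x1 j) (x2 j) (x3 j) (x4 j) (x5 j) (x6 j) (x7 j) (x8 j) (x9 j) (x10 j) (x11 j) (x12 j) (x13 j) (x14 j) (h0 j) (h1 j) (h2 j) (h3 j) (h4 j) (h5 j) (h6 j) (h7 j) (h8 j) (h9 j))
    (by simp only [Finset.sum_add_distrib, ← Finset.mul_sum, s0, s1, s2, s3, s4, s5, s6, s7, s8, s9, s10, s11, s12, s13, s14]; norm_num)
  simp only [Finset.sum_add_distrib, s10, s11, s12, s13, s14] at h
  norm_num at h

lemma petB : ∀ x0 x1 x2 x3 x4 x5 x6 x7 x8 x9 x10 x11 x12 x13 x14 : Bool, (xor x0 (xor x4 (xor x10 false))) = false → (xor x0 (xor x1 (xor x11 false))) = false → (xor x1 (xor x2 (xor x12 false))) = false → (xor x2 (xor x3 (xor x13 false))) = false → (xor x3 (xor x4 (xor x14 false))) = false → (xor x5 (xor x8 (xor x10 false))) = false → (xor x6 (xor x9 (xor x11 false))) = false → (xor x5 (xor x7 (xor x12 false))) = false → (xor x6 (xor x8 (xor x13 false))) = false → (xor x7 (xor x9 (xor x14 false))) = false →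
    0 ≤ (-2) * I x0 + (2) * I x1 + (-2) * I x2 + (2) * I x3 + (2) * I x4 + (-2) * I x5 + (-2) * I x6 + (2) * I x7 + (2) * I x8 + (2) * I x9 + (2) * I x10 + (2) * I x11 + (2) * I x12 + (2) * I x13 + (-2) * I x14 ∧ ((-2) * I x0 + (2) * I x1 + (-2) * I x2 + (2) * I x3 + (2) * I x4 + (-2) * I x5 + (-2) * I x6 + (2) * I x7 + (2) * I x8 + (2) * I x9 + (2) * I x10 + (2) * I x11 + (2) * I x12 + (2) * I x13 + (-2) * I x14 = 0 → (4:ℤ) ∣ I x0 + I x2 + I x5 + I x6 + I x14) := by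
  decide +kernel

lemma noB {m : ℕ} (x0 x1 x2 x3 x4 x5 x6 x7 x8 x9 x10 x11 x12 x13 x14 : Fin m → Bool)
    (h0 : ∀ j, (xor (x0 j) (xor (x4 j) (xor (x10 j) false))) = false) (h1 : ∀ j, (xor (x0 j) (xor (x1 j) (xor (x11 j) false))) = false) (h2 : ∀ j, (xor (x1 j) (xor (x2 j) (xor (x12 j) false))) = false) (h3 : ∀ j, (xor (x2 j) (xor (x3 j) (xor (x13 j) false))) = false) (h4 : ∀ j, (xor (x3 j) (xor (x4 j) (xor (x14 j) false))) = false) (h5 : ∀ j, (xor (x5 j) (xor (x8 j) (xor (x10 j) false))) = false) (h6 : ∀ j, (xor (x6 j) (xor (x9 j) (xor (x11 j) false))) = false) (h7 : ∀ j, (xor (x5 j) (xor (x7 j) (xor (x12 j) false))) = false) (h8 : ∀ j, (xor (x6 j) (xor (x8 j) (xor (x13 j) false))) = false) (h9 : ∀ j, (xor (x7 j) (xor (x9 j) (xor (x14 j) false))) = false)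
    (s0 : ∑ j, I (x0 j) = 3) (s1 : ∑ j, I (x1 j) = 1) (s2 : ∑ j, I (x2 j) = 3) (s3 : ∑ j, I (x3 j) = 1) (s4 : ∑ j, I (x4 j) = 1) (s5 : ∑ j, I (x5 j) = 3) (s6 : ∑ j, I (x6 j) = 3) (s7 : ∑ j, I (x7 j) = 1) (s8 : ∑ j, I (x8 j) = 1) (s9 : ∑ j, I (x9 j) = 1) (s10 : ∑ j, I (x10 j) = 2) (s11 : ∑ j, I (x11 j) = 2) (s12 : ∑ j, I (x12 j) = 2) (s13 : ∑ j, I (x13 j) = 2) (s14 : ∑ j, I (x14 j) = 2) : False := by
  have h := key (fun j => (-2) * I (x0 j) + (2) * I (x1 j) + (-2) * I (x2 j) + (2) * I (x3 j) + (2) * I (x4 j) + (-2) * I (x5 j) + (-2) * I (x6 j) + (2) * I (x7 j) + (2) * I (x8 j) + (2) * I (x9 j) + (2) * I (x10 j) + (2) * I (x11 j) + (2) * I (x12 j) + (2) * I (x13 j) + (-2) * I (x14 j)) (fun j => I (x0 j) + I (x2 j) + I (x5 j) + I (x6 j) + I (x14 j))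
    (fun j => petB (x0 j) (x1 j) (x2 j) (x3 j) (x4 j) (x5 j) (x6 j) (x7 j) (x8 j) (x9 j) (x10 j) (x11 j) (x12 j) (x13 j) (x14 j) (h0 j) (h1 j) (h2 j) (h3 j) (h4 j) (h5 j) (h6 j) (h7 j) (h8 j) (h9 j))
    (by simp only [Finset.sum_add_distrib, ← Finset.mul_sum, s0, s1, s2, s3, s4, s5, s6, s7, s8, s9, s10, s11, s12, s13, s14]; norm_num)
  simp only [Finset.sum_add_distrib, s0, s2, s5, s6, s14] at h
  norm_num at h

lemma tau_eq : ∀ x1 x2 x3 x4 x5 x6 x7 x8 x9 x10 x11 x12 x13 x14 : Bool, (xor x1 (xor x2 (xor x12 false))) = false → (xor x2 (xor x3 (xor x13 false))) = false → (xor x3 (xor x4 (xor x14 false))) = false → (xor x5 (xor x8 (xor x10 false))) = false → (xor x6 (xor x9 (xor x11 false))) = false → (xor x5 (xor x7 (xor x12 false))) = false → (xor x6 (xor x8 (xor x13 false))) = false → (xor x7 (xor x9 (xor x14 false))) = false →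
    xor x4 x10 = xor x1 x11 := by
  decide +kernel

lemma gadget {m : ℕ} (x1 x2 x3 x4 x5 x6 x7 x8 x9 x10 x11 x12 x13 x14 : Fin m → Bool)
    (h2 : ∀ j, (xor (x1 j) (xor (x2 j) (xor (x12 j) false))) = false) (h3 : ∀ j, (xor (x2 j) (xor (x3 j) (xor (x13 j) false))) = false) (h4 : ∀ j, (xor (x3 j) (xor (x4 j) (xor (x14 j) false))) = false) (h5 : ∀ j, (xor (x5 j) (xor (x8 j) (xor (x10 j) false))) = false) (h6 : ∀ j, (xor (x6 j) (xor (x9 j) (xor (x11 j) false))) = false) (h7 : ∀ j, (xor (x5 j) (xor (x7 j) (xor (x12 j) false))) = false) (h8 : ∀ j, (xor (x6 j) (xor (x8 j) (xor (x13 j) false))) = false) (h9 : ∀ j, (xor (x7 j) (xor (x9 j) (xor (x14 j) false))) = false)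
    (s1 : ∑ j, I (x1 j) = 1) (s2 : ∑ j, I (x2 j) = 1) (s3 : ∑ j, I (x3 j) = 1) (s4 : ∑ j, I (x4 j) = 1) (s5 : ∑ j, I (x5 j) = 1) (s6 : ∑ j, I (x6 j) = 1) (s7 : ∑ j, I (x7 j) = 1) (s8 : ∑ j, I (x8 j) = 1) (s9 : ∑ j, I (x9 j) = 1) (s10 : ∑ j, I (x10 j) = 2) (s11 : ∑ j, I (x11 j) = 2) (s12 : ∑ j, I (x12 j) = 2) (s13 : ∑ j, I (x13 j) = 2) (s14 : ∑ j, I (x14 j) = 2) :
    ∑ j, I (xor (x4 j) (x10 j)) = 3 := by
  have e1 : ∀ a b : Bool, I (xor a b) = I a + I b - 2 * I (a && b) := by decide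
  have e2 : ∀ a b : Bool, I (a && b) ≤ I a := by decide
  have e3 : ∀ a : Bool, 0 ≤ I a := by decide
  have a1 : ∑ j, I (xor (x4 j) (x10 j)) = 3 - 2 * ∑ j, I (x4 j && x10 j) := by
    simp only [e1, Finset.sum_sub_distrib, Finset.sum_add_distrib, ← Finset.mul_sum, s4, s10]; norm_num
  have a2 : ∑ j, I (x4 j && x10 j) ≤ 1 := by
    rw [← s4]; exact Finset.sum_le_sum (fun j _ => e2 _ _)
  have a3 : 0 ≤ ∑ j, I (x4 j && x10 j) := Finset.sum_nonneg (fun j _ => e3 _)
  by_contra hne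
  have a4 : ∑ j, I (xor (x4 j) (x10 j)) = 1 := by omega
  have f0 : ∀ a b : Bool, xor (xor a b) (xor a (xor b false)) = false := by decide
  refine noA (fun j => xor (x4 j) (x10 j)) x1 x2 x3 x4 x5 x6 x7 x8 x9 x10 x11 x12 x13 x14 (fun j => f0 _ _) (fun j => ?_) h2 h3 h4 h5 h6 h7 h8 h9 a4 s1 s2 s3 s4 s5 s6 s7 s8 s9 s10 s11 s12 s13 s14
  have := tau_eq (x1 j) (x2 j) (x3 j) (x4 j) (x5 j) (x6 j) (x7 j) (x8 j) (x9 j) (x10 j) (x11 j) (x12 j) (x13 j) (x14 j) (h2 j) (h3 j) (h4 j) (h5 j) (h6 j) (h7 j) (h8 j) (h9 j)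
  rw [this]; exact f0 _ _

def A (e : Fin 67) : Fin 42 := ([1, 3, 4, 7, 8, 9, 0, 1, 2, 3, 4, 1, 10, 11, 12, 13, 14, 15, 16, 17, 0, 1, 10, 11, 12, 3, 18, 19, 20, 21, 22, 23, 24, 25, 2, 3, 18, 19, 20, 7, 26, 27, 28, 29, 30, 31, 32, 33, 5, 7, 26, 27, 28, 8, 34, 35, 36, 37, 38, 39, 40, 41, 6, 8, 34, 35, 36] : List (Fin 42)).getD e 0
def B (e : Fin 67) : Fin 42 := ([2, 4, 0, 9, 5, 6, 5, 6, 7, 8, 9, 10, 11, 12, 0, 15, 16, 17, 13, 14, 13, 14, 15, 16, 17, 18, 19, 20, 2, 23, 24, 25, 21, 22, 21, 22, 23, 24, 25, 26, 27, 28, 5, 31, 32, 33, 29, 30, 29, 30, 31, 32, 33, 34, 35, 36, 6, 39, 40, 41, 37, 38, 37, 38, 39, 40, 41] : List (Fin 42)).getD e 0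
def ends (e : Fin 67) : Sym2 (Fin 42) := s(A e, B e)
def inc (v : Fin 42) : List (Fin 67) := ([[2, 6, 14, 20], [0, 7, 11, 21], [0, 8, 28, 34], [1, 9, 25, 35], [1, 2, 10], [4, 6, 42, 48], [5, 7, 56, 62], [3, 8, 39, 49], [4, 9, 53, 63], [3, 5, 10], [11, 12, 22], [12, 13, 23], [13, 14, 24], [15, 18, 20], [16, 19, 21], [15, 17, 22], [16, 18, 23], [17, 19, 24], [25, 26, 36], [26, 27, 37], [27, 28, 38], [29, 32, 34], [30, 33, 35], [29, 31, 36], [30, 32, 37], [31, 33, 38], [39, 40, 50], [40, 41, 51], [41, 42, 52], [43, 46, 48], [44, 47, 49], [43, 45, 50], [44, 46, 51], [45, 47, 52], [53, 54, 64], [54, 55, 65], [55, 56, 66], [57, 60, 62], [58, 61, 63], [57, 59, 64], [58, 60, 65], [59, 61, 66]] : List (List (Fin 67))).getD v []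
def W (e : Fin 67) : ℕ := ([1, 1, 1, 1, 1, 1, 4, 2, 2, 2, 2, 1, 1, 1, 1, 1, 1, 1, 1, 1, 2, 2, 2, 2, 2, 1, 1, 1, 1, 1, 1, 1, 1, 1, 2, 2, 2, 2, 2, 1, 1, 1, 1, 1, 1, 1, 1, 1, 2, 2, 2, 2, 2, 1, 1, 1, 1, 1, 1, 1, 1, 1, 2, 2, 2, 2, 2] : List ℕ).getD e 0
def cir (i : Fin 4) : List (Fin 67) := ([[13, 24, 19, 21, 0, 34, 32, 37, 27, 38, 33, 35, 1, 10, 3, 49, 47, 52, 41, 51, 46, 48, 6, 20, 18, 23], [11, 22, 17, 24, 14, 6, 4, 63, 61, 66, 55, 65, 60, 62, 7], [12, 23, 16, 21, 7, 56, 66, 59, 64, 53, 9, 25, 36, 31, 38, 28, 8, 39, 50, 45, 52, 42, 6, 20, 15, 22], [26, 37, 30, 35, 9, 63, 58, 65, 54, 64, 57, 62, 5, 10, 2, 6, 48, 43, 50, 40, 51, 44, 49, 8, 34, 29, 36]] : List (List (Fin 67))).getD i []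
def cirv (i : Fin 4) : List (Fin 42) := ([[12, 17, 14, 1, 2, 21, 24, 19, 20, 25, 22, 3, 4, 9, 7, 30, 33, 28, 27, 32, 29, 5, 0, 13, 16], [10, 15, 17, 12, 0, 5, 8, 38, 41, 36, 35, 40, 37, 6], [11, 16, 14, 1, 6, 36, 41, 39, 34, 8, 3, 18, 23, 25, 20, 2, 7, 26, 31, 33, 28, 5, 0, 13, 15], [19, 24, 22, 3, 8, 38, 40, 35, 34, 39, 37, 6, 9, 4, 0, 5, 29, 31, 26, 27, 32, 30, 7, 2, 21, 23]] : List (List (Fin 42))).getD i []

def par (b : Fin 67 → Bool) (l : List (Fin 67)) : Bool := l.foldr (fun e acc => xor (b e) acc) false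

lemma inc_spec0 : ∀ (v : Fin 42) (e : Fin 67), ((v = A e ∨ v = B e) ∧ ¬ A e = B e) ↔ e ∈ inc v := by
  decide +kernel

lemma inc_spec (v : Fin 42) (e : Fin 67) : (v ∈ ends e ∧ ¬ (ends e).IsDiag) ↔ e ∈ inc v := by
  rw [← inc_spec0]; simp [ends]

lemma inc_nodup : ∀ v : Fin 42, (inc v).Nodup := by decide +kernel

lemma par_iff (S : Finset (Fin 67)) (l : List (Fin 67)) (hl : l.Nodup) :
    Even (S.filter (fun x => x ∈ l)).card ↔ par (fun e => decide (e ∈ S)) l = false := by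
  induction l with
  | nil => simp [par]
  | cons a l ih =>
    rw [List.nodup_cons] at hl
    have ih := ih hl.2
    have hp : par (fun e => decide (e ∈ S)) (a :: l) = xor (decide (a ∈ S)) (par (fun e => decide (e ∈ S)) l) := rfl
    rw [hp]
    by_cases ha : a ∈ S
    · have : S.filter (fun x => x ∈ a :: l) = insert a (S.filter (fun x => x ∈ l)) := by
        ext x; simp only [Finset.mem_filter, List.mem_cons, Finset.mem_insert]
        constructor
        · rintro ⟨h1, h2 | h2⟩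
          · exact Or.inl h2
          · exact Or.inr ⟨h1, h2⟩
        · rintro (h | ⟨h1, h2⟩)
          · exact ⟨h ▸ ha, Or.inl h⟩
          · exact ⟨h1, Or.inr h2⟩
      rw [this, Finset.card_insert_of_notMem (by simp [hl.1]), Nat.even_add_one, ih]
      simp [ha]
    · have : S.filter (fun x => x ∈ a :: l) = S.filter (fun x => x ∈ l) := by
        ext x; simp only [Finset.mem_filter, List.mem_cons]
        constructor
        · rintro ⟨h1, h2 | h2⟩
          · exact absurd (h2 ▸ h1) ha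
          · exact ⟨h1, h2⟩
        · rintro ⟨h1, h2⟩
          exact ⟨h1, Or.inr h2⟩
      rw [this, ih]
      simp [ha]

lemma even_iff (S : Finset (Fin 67)) (v : Fin 42)
    (inst : DecidablePred (fun x => v ∈ ends x ∧ ¬ (ends x).IsDiag)) :
    Even (@Finset.filter _ (fun x => v ∈ ends x ∧ ¬ (ends x).IsDiag) inst S).card ↔
      par (fun e => decide (e ∈ S)) (inc v) = false := by
  rw [← par_iff S _ (inc_nodup v)]
  have : @Finset.filter _ (fun x => v ∈ ends x ∧ ¬ (ends x).IsDiag) inst S = S.filter (fun x => x ∈ inc v) := by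
    ext x; simp only [Finset.mem_filter, inc_spec]
  rw [this]

def chain (l : List (Fin 67)) : Fin 67 → List (Fin 67) → List (Fin 42) → Bool
  | _, [], _ => true
  | _, _ :: _, [] => false
  | e, e' :: r, v :: vs =>
      (((inc v).filter (fun x => decide (x ∈ l)) == [e, e']) || ((inc v).filter (fun x => decide (x ∈ l)) == [e', e])) && chain l e' r vs

lemma par_filter (b : Fin 67 → Bool) (l : List (Fin 67)) (hb : ∀ x, x ∉ l → b x = false) (s : List (Fin 67)) :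
    par b (s.filter (fun x => decide (x ∈ l))) = par b s := by
  induction s with
  | nil => rfl
  | cons a s ih =>
    have hp : ∀ t, par b (a :: t) = xor (b a) (par b t) := fun t => rfl
    by_cases ha : a ∈ l
    · rw [List.filter_cons_of_pos (by simpa using ha), hp, hp, ih]
    · rw [List.filter_cons_of_neg (by simpa using ha), hp, ih, hb a ha]; simp

lemma chain_spec (b : Fin 67 → Bool) (l : List (Fin 67)) (hb : ∀ x, x ∉ l → b x = false)
    (hp : ∀ v, par b (inc v) = false) :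
    ∀ (r : List (Fin 67)) (e : Fin 67) (vs : List (Fin 42)), chain l e r vs = true → ∀ x ∈ r, b x = b e := by
  intro r
  induction r with
  | nil => intro e vs _ x hx; simp at hx
  | cons e' r ih =>
    intro e vs h x hx
    cases vs with
    | nil => simp [chain] at h
    | cons v vs =>
      simp only [chain, Bool.and_eq_true, Bool.or_eq_true, beq_iff_eq] at h
      have h1 := par_filter b l hb (inc v)
      rw [hp v] at h1
      have h2 : b e' = b e := by
        rcases h.1 with h3 | h3 <;> rw [h3] at h1 <;> simp only [par, List.foldr] at h1 <;>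
          revert h1 <;> cases b e <;> cases b e' <;> simp
      rcases List.mem_cons.1 hx with rfl | hx
      · exact h2
      · rw [ih e' vs h.2 x hx, h2]

lemma cir_chain : ∀ i : Fin 4, chain (cir i) ((cir i).headD 0) (cir i) (A ((cir i).headD 0) :: cirv i) = true ∨
    (chain (cir i) ((cir i).headD 0) (cir i).tail (cirv i) = true ∧ cir i = (cir i).headD 0 :: (cir i).tail) := by
  decide +kernel

lemma cir_const (i : Fin 4) (b : Fin 67 → Bool) (hb : ∀ x, x ∉ cir i → b x = false)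
    (hp : ∀ v, par b (inc v) = false) : ∀ x ∈ cir i, b x = b ((cir i).headD 0) := by
  rcases cir_chain i with h | ⟨h, h'⟩
  · exact chain_spec b _ hb hp _ _ _ h
  · intro x hx
    rw [h'] at hx
    rcases List.mem_cons.1 hx with hx | hx
    · rw [hx]
    · exact chain_spec b _ hb hp _ _ _ h x hx

lemma cir_par : ∀ (i : Fin 4) (v : Fin 42), par (fun e => decide (e ∈ (cir i).toFinset)) (inc v) = false := by
  decide +kernel

lemma cir_cnt : ∀ e : Fin 67, (Finset.univ.filter (fun i : Fin 4 => e ∈ (cir i).toFinset)).card = W e := by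
  decide +kernel

lemma W_facts : ∀ e : Fin 67, 1 ≤ W e ∧ W e ≤ 4 ∧ (e ≠ 6 → W e ≤ 2) := by decide +kernel

lemma no_cover {m : ℕ} (b : Fin m → Fin 67 → Bool) (hp : ∀ j v, par (b j) (inc v) = false)
    (hs : ∀ e, e ≠ 6 → ∑ j, I (b j e) = W e) (h6 : ∑ j, I (b j 6) = 2) : False := by
  have t0 : ∑ j, I (xor (b j 14) (b j 20)) = 3 :=
    gadget (fun j => b j 11) (fun j => b j 12) (fun j => b j 13) (fun j => b j 14) (fun j => b j 15) (fun j => b j 16) (fun j => b j 17) (fun j => b j 18) (fun j => b j 19) (fun j => b j 20) (fun j => b j 21) (fun j => b j 22) (fun j => b j 23) (fun j => b j 24) (fun j => hp j 10) (fun j => hp j 11) (fun j => hp j 12) (fun j => hp j 13) (fun j => hp j 14) (fun j => hp j 15) (fun j => hp j 16) (fun j => hp j 17)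
      (hs 11 (by decide)) (hs 12 (by decide)) (hs 13 (by decide)) (hs 14 (by decide)) (hs 15 (by decide)) (hs 16 (by decide)) (hs 17 (by decide)) (hs 18 (by decide)) (hs 19 (by decide)) (hs 20 (by decide)) (hs 21 (by decide)) (hs 22 (by decide)) (hs 23 (by decide)) (hs 24 (by decide))
  have q0 : ∀ j, xor (b j 14) (b j 20) = xor (b j 11) (b j 21) := fun j =>
    tau_eq (b j 11) (b j 12) (b j 13) (b j 14) (b j 15) (b j 16) (b j 17) (b j 18) (b j 19) (b j 20) (b j 21) (b j 22) (b j 23) (b j 24) (hp j 10) (hp j 11) (hp j 12) (hp j 13) (hp j 14) (hp j 15) (hp j 16) (hp j 17)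
  have t1 : ∑ j, I (xor (b j 28) (b j 34)) = 3 :=
    gadget (fun j => b j 25) (fun j => b j 26) (fun j => b j 27) (fun j => b j 28) (fun j => b j 29) (fun j => b j 30) (fun j => b j 31) (fun j => b j 32) (fun j => b j 33) (fun j => b j 34) (fun j => b j 35) (fun j => b j 36) (fun j => b j 37) (fun j => b j 38) (fun j => hp j 18) (fun j => hp j 19) (fun j => hp j 20) (fun j => hp j 21) (fun j => hp j 22) (fun j => hp j 23) (fun j => hp j 24) (fun j => hp j 25)
      (hs 25 (by decide)) (hs 26 (by decide)) (hs 27 (by decide)) (hs 28 (by decide)) (hs 29 (by decide)) (hs 30 (by decide)) (hs 31 (by decide)) (hs 32 (by decide)) (hs 33 (by decide)) (hs 34 (by decide)) (hs 35 (by decide)) (hs 36 (by decide)) (hs 37 (by decide)) (hs 38 (by decide))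
  have q1 : ∀ j, xor (b j 28) (b j 34) = xor (b j 25) (b j 35) := fun j =>
    tau_eq (b j 25) (b j 26) (b j 27) (b j 28) (b j 29) (b j 30) (b j 31) (b j 32) (b j 33) (b j 34) (b j 35) (b j 36) (b j 37) (b j 38) (hp j 18) (hp j 19) (hp j 20) (hp j 21) (hp j 22) (hp j 23) (hp j 24) (hp j 25)
  have t2 : ∑ j, I (xor (b j 42) (b j 48)) = 3 :=
    gadget (fun j => b j 39) (fun j => b j 40) (fun j => b j 41) (fun j => b j 42) (fun j => b j 43) (fun j => b j 44) (fun j => b j 45) (fun j => b j 46) (fun j => b j 47) (fun j => b j 48) (fun j => b j 49) (fun j => b j 50) (fun j => b j 51) (fun j => b j 52) (fun j => hp j 26) (fun j => hp j 27) (fun j => hp j 28) (fun j => hp j 29) (fun j => hp j 30) (fun j => hp j 31) (fun j => hp j 32) (fun j => hp j 33)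
      (hs 39 (by decide)) (hs 40 (by decide)) (hs 41 (by decide)) (hs 42 (by decide)) (hs 43 (by decide)) (hs 44 (by decide)) (hs 45 (by decide)) (hs 46 (by decide)) (hs 47 (by decide)) (hs 48 (by decide)) (hs 49 (by decide)) (hs 50 (by decide)) (hs 51 (by decide)) (hs 52 (by decide))
  have q2 : ∀ j, xor (b j 42) (b j 48) = xor (b j 39) (b j 49) := fun j =>
    tau_eq (b j 39) (b j 40) (b j 41) (b j 42) (b j 43) (b j 44) (b j 45) (b j 46) (b j 47) (b j 48) (b j 49) (b j 50) (b j 51) (b j 52) (hp j 26) (hp j 27) (hp j 28) (hp j 29) (hp j 30) (hp j 31) (hp j 32) (hp j 33)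
  have t3 : ∑ j, I (xor (b j 56) (b j 62)) = 3 :=
    gadget (fun j => b j 53) (fun j => b j 54) (fun j => b j 55) (fun j => b j 56) (fun j => b j 57) (fun j => b j 58) (fun j => b j 59) (fun j => b j 60) (fun j => b j 61) (fun j => b j 62) (fun j => b j 63) (fun j => b j 64) (fun j => b j 65) (fun j => b j 66) (fun j => hp j 34) (fun j => hp j 35) (fun j => hp j 36) (fun j => hp j 37) (fun j => hp j 38) (fun j => hp j 39) (fun j => hp j 40) (fun j => hp j 41)
      (hs 53 (by decide)) (hs 54 (by decide)) (hs 55 (by decide)) (hs 56 (by decide)) (hs 57 (by decide)) (hs 58 (by decide)) (hs 59 (by decide)) (hs 60 (by decide)) (hs 61 (by decide)) (hs 62 (by decide)) (hs 63 (by decide)) (hs 64 (by decide)) (hs 65 (by decide)) (hs 66 (by decide))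
  have q3 : ∀ j, xor (b j 56) (b j 62) = xor (b j 53) (b j 63) := fun j =>
    tau_eq (b j 53) (b j 54) (b j 55) (b j 56) (b j 57) (b j 58) (b j 59) (b j 60) (b j 61) (b j 62) (b j 63) (b j 64) (b j 65) (b j 66) (hp j 34) (hp j 35) (hp j 36) (hp j 37) (hp j 38) (hp j 39) (hp j 40) (hp j 41)
  have v0 : ∀ j, (xor (xor (b j 14) (b j 20)) (xor (b j 2) (xor (b j 6) false))) = false := fun j => by
    have h : (xor (b j 2) (xor (b j 6) (xor (b j 14) (xor (b j 20) false)))) = false := hp j 0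
    revert h; cases b j 2 <;> cases b j 6 <;> cases b j 14 <;> cases b j 20 <;> simp
  have v1 : ∀ j, (xor (xor (b j 14) (b j 20)) (xor (b j 0) (xor (b j 7) false))) = false := fun j => by
    have h : (xor (b j 0) (xor (b j 7) (xor (b j 11) (xor (b j 21) false)))) = false := hp j 1
    rw [q0 j]; revert h; cases b j 0 <;> cases b j 7 <;> cases b j 11 <;> cases b j 21 <;> simp
  have v2 : ∀ j, (xor (b j 0) (xor (xor (b j 28) (b j 34)) (xor (b j 8) false))) = false := fun j => by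
    have h : (xor (b j 0) (xor (b j 8) (xor (b j 28) (xor (b j 34) false)))) = false := hp j 2
    revert h; cases b j 0 <;> cases b j 8 <;> cases b j 28 <;> cases b j 34 <;> simp
  have v3 : ∀ j, (xor (xor (b j 28) (b j 34)) (xor (b j 1) (xor (b j 9) false))) = false := fun j => by
    have h : (xor (b j 1) (xor (b j 9) (xor (b j 25) (xor (b j 35) false)))) = false := hp j 3
    rw [q1 j]; revert h; cases b j 1 <;> cases b j 9 <;> cases b j 25 <;> cases b j 35 <;> simp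
  have v4 : ∀ j, (xor (b j 1) (xor (b j 2) (xor (b j 10) false))) = false := fun j => by
    have h : (xor (b j 1) (xor (b j 2) (xor (b j 10) false))) = false := hp j 4
    revert h; cases b j 1 <;> cases b j 2 <;> cases b j 10 <;> simp
  have v5 : ∀ j, (xor (xor (b j 42) (b j 48)) (xor (b j 4) (xor (b j 6) false))) = false := fun j => by
    have h : (xor (b j 4) (xor (b j 6) (xor (b j 42) (xor (b j 48) false)))) = false := hp j 5
    revert h; cases b j 4 <;> cases b j 6 <;> cases b j 42 <;> cases b j 48 <;> simp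
  have v6 : ∀ j, (xor (xor (b j 56) (b j 62)) (xor (b j 5) (xor (b j 7) false))) = false := fun j => by
    have h : (xor (b j 5) (xor (b j 7) (xor (b j 56) (xor (b j 62) false)))) = false := hp j 6
    revert h; cases b j 5 <;> cases b j 7 <;> cases b j 56 <;> cases b j 62 <;> simp
  have v7 : ∀ j, (xor (xor (b j 42) (b j 48)) (xor (b j 3) (xor (b j 8) false))) = false := fun j => by
    have h : (xor (b j 3) (xor (b j 8) (xor (b j 39) (xor (b j 49) false)))) = false := hp j 7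
    rw [q2 j]; revert h; cases b j 3 <;> cases b j 8 <;> cases b j 39 <;> cases b j 49 <;> simp
  have v8 : ∀ j, (xor (xor (b j 56) (b j 62)) (xor (b j 4) (xor (b j 9) false))) = false := fun j => by
    have h : (xor (b j 4) (xor (b j 9) (xor (b j 53) (xor (b j 63) false)))) = false := hp j 8
    rw [q3 j]; revert h; cases b j 4 <;> cases b j 9 <;> cases b j 53 <;> cases b j 63 <;> simp
  have v9 : ∀ j, (xor (b j 3) (xor (b j 5) (xor (b j 10) false))) = false := fun j => by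
    have h : (xor (b j 3) (xor (b j 5) (xor (b j 10) false))) = false := hp j 9
    revert h; cases b j 3 <;> cases b j 5 <;> cases b j 10 <;> simp
  exact noB (fun j => (xor (b j 14) (b j 20))) (fun j => (b j 0)) (fun j => (xor (b j 28) (b j 34))) (fun j => (b j 1)) (fun j => (b j 2)) (fun j => (xor (b j 42) (b j 48))) (fun j => (xor (b j 56) (b j 62))) (fun j => (b j 3)) (fun j => (b j 4)) (fun j => (b j 5)) (fun j => (b j 6)) (fun j => (b j 7)) (fun j => (b j 8)) (fun j => (b j 9)) (fun j => (b j 10)) v0 v1 v2 v3 v4 v5 v6 v7 v8 v9 t0 (hs 0 (by decide)) t1 (hs 1 (by decide)) (hs 2 (by decide)) t2 t3 (hs 3 (by decide)) (hs 4 (by decide)) (hs 5 (by decide)) h6 (hs 7 (by decide)) (hs 8 (by decide)) (hs 9 (by decide)) (hs 10 (by decide))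

end Pool.Agent.Lead.Cov4
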