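import Pool.Agent.H18.DSumA

namespace Pool.Agent.Lead.DSumAll

open Pool.Agent.H18.DSumA

lemma F_le {b n X : ℕ} (h : ∀ u, X < u → u ∈ Out b n) : F b n ≤ X :=
  csSup_le' (fun u hu => by by_contra hc; exact hu.2 (h u (by omega)))

lemma F_eq {b n X : ℕ} (h : ∀ u, X < u → u ∈ Out b n) (h0 : 0 < X) (hX : X ∉ Out b n) :
    F b n = X :=
  le_antisymm (F_le h) (le_csSup ⟨X, fun u hu => by by_contra hc; exact hu.2 (h u (by omega))⟩
    ⟨h0, hX⟩)

theorem main (b a m e : ℕ) (hb : 2 ≤ b) (hm : 2 ≤ m) (ha : a ∣ b ^ e) (hc : Nat.Coprime b m)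
    (hc' : Nat.Coprime (b - 1) (a * m)) :
    (∀ u, u ∈ Out b (a * m) ↔
      0 < u ∧ ∃ L : List ℕ, L.length = u ∧ m ∣ (L.map (fun j => b ^ j)).sum) ∧
    F b (a * m) = F b m ∧
    F b (a * m) ≤ m - 2 ∧
    (F b (a * m) = m - 2 ↔ m ∣ b + 1) ∧
    (m.Prime → F b (a * m) * (orderOf (b : ZMod m) - 1) ≤ m - 2) ∧
    (∀ k, m = ∑ j ∈ Finset.range k, b ^ j → F b (a * m) = (k - 1) * (b - 1)) := by
  have hb1 : 1 < b := hb
  have hm0 : 0 < m := by omega
  have hcm : Nat.Coprime (b - 1) m := Nat.Coprime.coprime_dvd_right (Dvd.intro_left _ rfl) hc'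
  have key := mem_Out hb1 hm0 hc ha
  have key1 := mem_Out (a := 1) (e0 := 0) hb1 hm0 hc (one_dvd _)
  have hodd : m % 2 = 1 := by
    by_contra h
    have h2 : 2 ∣ m := by omega
    rcases Nat.even_or_odd' b with ⟨j, hj | hj⟩
    · have := Nat.dvd_gcd (show 2 ∣ b by omega) h2
      rw [hc] at this; omega
    · have := Nat.dvd_gcd (show 2 ∣ b - 1 by omega) h2
      rw [hcm] at this; omega
  have big : ∀ u, m - 2 < u → u ∈ Out b (a * m) := by
    intro u hu
    obtain ⟨t, ht, hd⟩ := two_pow hb1 hm0 hcm u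
    obtain ⟨L, h1, h2⟩ := list_two hb1 (show t ≤ u by omega)
    exact (key u).2 ⟨by omega, L, h1, h2 ▸ hd⟩
  refine ⟨key, ?_, F_le big, ⟨fun hF => ?_, fun hd => ?_⟩, fun hp => ?_, fun k hk => ?_⟩
  · unfold F
    congr 1
    ext u
    have := key1 u
    rw [one_mul] at this
    simp only [Set.mem_setOf_eq, key u, this]
  · by_contra hnd
    have : F b (a * m) ≤ m - 3 := by
      refine F_le fun u hu => ?_
      by_cases h : m - 2 < u
      · exact big u h
      · obtain ⟨t, ht, hd⟩ := two_pow hb1 hm0 hcm u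
        have htu : t ≤ u := by
          by_contra hlt
          apply hnd
          obtain ⟨c, rfl⟩ : ∃ c, b = c + 1 := ⟨b - 1, by omega⟩
          obtain ⟨x, rfl⟩ : ∃ x, m = x + 2 := ⟨m - 2, by omega⟩
          have e1 : u = x := by omega
          have e2 : t = x + 1 := by omega
          rw [e1, e2, Nat.add_sub_cancel] at hd
          have e3 : (x + 2) * (c + 1) = (x + (x + 1) * c) + (c + 1 + 1) := by ring
          exact (Nat.dvd_add_right hd).1 (e3 ▸ Dvd.intro _ rfl)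
        obtain ⟨L, h1, h2⟩ := list_two hb1 htu
        exact (key u).2 ⟨by omega, L, h1, h2 ▸ hd⟩
    omega
  · refine F_eq big (by omega) fun hin => ?_
    obtain ⟨-, L, h1, h2⟩ := (key _).1 hin
    obtain ⟨z, h3, h4, h5⟩ := signs hd L
    have h6 : (m : ℤ) ∣ z := by
      have h7 : (m : ℤ) ∣ pw b L := by exact_mod_cast h2
      have := dvd_sub h7 h5
      simpa using this
    rw [h1] at h3 h4
    have hz : z = 0 := Int.eq_zero_of_abs_lt_dvd h6 (by omega)
    omega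
  · by_contra hlt
    have hF0 : 0 < F b (a * m) := by
      rcases Nat.eq_zero_or_pos (F b (a * m)) with h | h
      · rw [h] at hlt; omega
      · exact h
    have hmem : F b (a * m) ∈ {u | 0 < u ∧ u ∉ Out b (a * m)} := by
      apply Nat.sSup_mem
      · by_contra hne
        rw [Set.not_nonempty_iff_eq_empty] at hne
        unfold F at hF0; rw [hne] at hF0; simp at hF0
      · exact ⟨m - 2, fun u hu => by by_contra hc; exact hu.2 (big u (by omega))⟩
    haveI : NeZero m := ⟨by omega⟩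
    obtain ⟨A, h1, h2⟩ := cd (b := b) hp (F b (a * m))
    have hA : A = Finset.univ := by
      apply Finset.eq_univ_of_card
      have := Finset.card_le_univ A
      rw [ZMod.card] at this ⊢
      omega
    obtain ⟨L, h3, h4⟩ := h2 0 (hA ▸ Finset.mem_univ _)
    exact hmem.2 ((key _).2 ⟨hF0, L, h3, (ZMod.natCast_eq_zero_iff _ _).1 h4⟩)
  · obtain ⟨B, rfl⟩ : ∃ B, b = B + 1 := ⟨b - 1, by omega⟩
    have hk' : m = rep (B + 1) k := hk
    have hk1 : 1 < k := by
      by_contra h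
      have : k = 0 ∨ k = 1 := by omega
      rcases this with rfl | rfl <;> simp at hk <;> omega
    simp only [Nat.add_sub_cancel] at hcm ⊢
    have hB : 0 < B := by omega
    refine F_eq (fun u hu => ?_) (Nat.mul_pos (by omega) hB) fun hin => ?_
    · obtain ⟨L, h1, h2⟩ := rep_in hB (by omega : 0 < k) (hk' ▸ hcm) hu
      exact (key u).2 ⟨by omega, L, h1, hk' ▸ h2⟩
    · obtain ⟨-, L, h1, h2⟩ := (key _).1 hin
      exact rep_out hB hk1 (hk' ▸ hcm) L h1 (hk' ▸ h2)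

lemma decomp (b n : ℕ) (hn : 0 < n) :
    ∃ a m e, n = a * m ∧ a ∣ b ^ e ∧ Nat.Coprime b m := by
  induction n using Nat.strong_induction_on with
  | _ n ih =>
    by_cases h : Nat.Coprime b n
    · exact ⟨1, n, 0, by simp, by simp, h⟩
    · obtain ⟨n', hn'⟩ := Nat.gcd_dvd_right b n
      have hg : 0 < Nat.gcd b n := Nat.gcd_pos_of_pos_right _ hn
      have hg1 : 1 < Nat.gcd b n := by
        have : Nat.gcd b n ≠ 1 := h
        omega
      have h0 : 0 < n' := by
        rcases Nat.eq_zero_or_pos n' with rfl | h0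
        · omega
        · exact h0
      obtain ⟨a, m, e, h1, h2, h3⟩ := ih n' (by nlinarith) h0
      refine ⟨Nat.gcd b n * a, m, e + 1, by rw [mul_assoc, ← h1]; exact hn', ?_, h3⟩
      rw [pow_succ']
      exact Nat.mul_dvd_mul (Nat.gcd_dvd_left _ _) h2

theorem all (b n : ℕ) (hb : 2 ≤ b) (hn : 1 ≤ n) (hc : Nat.Coprime (b - 1) n)
    (hp : ∃ p, p.Prime ∧ p ∣ n ∧ ¬ p ∣ b) :
    ∃ m, m ∣ n ∧ Nat.Coprime b m ∧ (∀ d, d ∣ n → Nat.Coprime b d → d ∣ m) ∧ 3 ≤ m ∧
    (∀ u, u ∈ Out b n ↔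
      0 < u ∧ ∃ L : List ℕ, L.length = u ∧ m ∣ (L.map (fun j => b ^ j)).sum) ∧
    F b n = F b m ∧
    F b n ≤ m - 2 ∧
    (F b n = m - 2 ↔ m ∣ b + 1) ∧
    (m.Prime → F b n * (orderOf (b : ZMod m) - 1) ≤ m - 2) ∧
    (∀ k, m = ∑ j ∈ Finset.range k, b ^ j → F b n = (k - 1) * (b - 1)) := by
  obtain ⟨a, m, e, rfl, h2, h3⟩ := decomp b n hn
  obtain ⟨p, pp, h4, h5⟩ := hp
  have hpm : p ∣ m := by
    rcases (Nat.Prime.dvd_mul pp).1 h4 with h | h
    · exact absurd (pp.dvd_of_dvd_pow (h.trans h2)) h5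
    · exact h
  have hm0 : 0 < m := Nat.pos_of_mul_pos_left hn
  have hm : 2 ≤ m := pp.two_le.trans (Nat.le_of_dvd hm0 hpm)
  refine ⟨m, Dvd.intro_left _ rfl, h3, fun d hd hbd => ?_, ?_, main b a m e hb hm h2 h3 hc⟩
  · exact (Nat.Coprime.coprime_dvd_left h2 (Nat.Coprime.pow_left e hbd)).symm.dvd_of_dvd_mul_left hd
  · by_contra h
    have e2 : m = 2 := by omega
    subst e2
    have hcm : Nat.Coprime (b - 1) 2 := Nat.Coprime.coprime_dvd_right (Dvd.intro_left _ rfl) hc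
    rcases Nat.even_or_odd' b with ⟨j, hj | hj⟩
    · have := Nat.dvd_gcd (show 2 ∣ b by omega) (dvd_refl 2)
      rw [h3] at this; omega
    · have := Nat.dvd_gcd (show 2 ∣ b - 1 by omega) (dvd_refl 2)
      rw [hcm] at this; omega

end Pool.Agent.Lead.DSumAll
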