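import Mathlib
import Pool.Agent.Lead.Cov4

set_option autoImplicit false
set_option synthInstance.maxSize 100000
set_option maxRecDepth 100000

namespace Pool.Agent.Lead.Goddyn

open Pool.Agent.Lead.Cov4 (I noA key petA)

def A (e : Fin 15) : Fin 10 := ([0,1,2,3,4,5,6,7,8,9,0,1,2,3,4] : List (Fin 10)).getD e 0
def B (e : Fin 15) : Fin 10 := ([1,2,3,4,0,7,8,9,5,6,5,6,7,8,9] : List (Fin 10)).getD e 0
def ed (e : Fin 15) : Sym2 (Fin 10) := s(A e, B e)
def adj (a b : Fin 10) : Bool := (List.finRange 15).any (fun e => (A e == a && B e == b) || (A e == b && B e == a))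
def inc (v : Fin 10) : List (Fin 15) :=
  ([[0,4,10],[0,1,11],[1,2,12],[2,3,13],[3,4,14],[5,8,10],[6,9,11],[5,7,12],[6,8,13],[7,9,14]] : List (List (Fin 15))).getD v []

lemma adj_symm : ∀ a b, adj a b = true → adj b a = true := by decide +kernel
lemma adj_irr : ∀ a, ¬ adj a a = true := by decide +kernel

def G : SimpleGraph (Fin 10) where
  Adj a b := adj a b = true
  symm := ⟨fun a b h => adj_symm a b h⟩
  loopless := ⟨fun a => adj_irr a⟩

def w0 (a b : Fin 10) : ℕ := if a.val + 5 = b.val ∨ b.val + 5 = a.val then 6 else 3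
lemma w0_symm : ∀ a b, w0 a b = w0 b a := by decide +kernel
def w : Sym2 (Fin 10) → ℕ := Sym2.lift ⟨w0, w0_symm⟩
@[simp] lemma w_mk (a b : Fin 10) : w s(a, b) = w0 a b := rfl

lemma ed_inj : Function.Injective ed := by
  intro a b; revert a b; decide +kernel
lemma ed_adj : ∀ e, adj (A e) (B e) = true := by decide +kernel
lemma adj_ed : ∀ a b, adj a b = true → ∃ e, s(a, b) = ed e := by decide +kernel
lemma inc_spec : ∀ v e, v ∈ ed e ↔ e ∈ inc v := by decide +kernel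
lemma inc_len : ∀ v, ∃ a b c, inc v = [a, b, c] ∧ a ≠ b ∧ a ≠ c ∧ b ≠ c := by decide +kernel

lemma bridge0 : ∀ a b, adj a b = true → ∃ c d e : Fin 10,
    (adj a c = true ∧ s(a, c) ≠ s(a, b)) ∧ (adj c d = true ∧ s(c, d) ≠ s(a, b)) ∧
    (adj d e = true ∧ s(d, e) ≠ s(a, b)) ∧ (adj e b = true ∧ s(e, b) ≠ s(a, b)) := by decide +kernel

lemma cut0 : ∀ f : Fin 10 → Bool, (∀ a b, f a = f b) ∨
    12 ≤ ∑ u : Fin 10, ∑ v : Fin 10, if (f u = true ∧ ¬ f v = true ∧ adj u v = true) then w0 u v else 0 := by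
  have : ∀ f0 f1 f2 f3 f4 f5 f6 f7 f8 f9 : Bool,
      (∀ a b, (![f0,f1,f2,f3,f4,f5,f6,f7,f8,f9] : Fin 10 → Bool) a = (![f0,f1,f2,f3,f4,f5,f6,f7,f8,f9] : Fin 10 → Bool) b) ∨
      12 ≤ ∑ u : Fin 10, ∑ v : Fin 10, if ((![f0,f1,f2,f3,f4,f5,f6,f7,f8,f9] : Fin 10 → Bool) u = true ∧
        ¬ (![f0,f1,f2,f3,f4,f5,f6,f7,f8,f9] : Fin 10 → Bool) v = true ∧ adj u v = true) then w0 u v else 0 := by
    decide +kernel
  intro f
  have hf : f = ![f 0, f 1, f 2, f 3, f 4, f 5, f 6, f 7, f 8, f 9] := by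
    funext i; fin_cases i <;> rfl
  rw [hf]; exact this _ _ _ _ _ _ _ _ _ _

lemma even0 : ∀ v : Fin 10, Even (∑ u : Fin 10, if adj v u = true then w0 v u else 0) := by decide +kernel
lemma w0_bd : ∀ a b, 2 ≤ w0 a b ∧ 2 * w0 a b ≤ 12 := by decide +kernel

lemma par_walk {x : Fin 10} (p : G.Walk x x) (hp : p.IsTrail) (v : Fin 10) (a b c : Fin 15)
    (h : inc v = [a, b, c]) :
    xor (decide (ed a ∈ p.edges)) (xor (decide (ed b ∈ p.edges)) (xor (decide (ed c ∈ p.edges)) false)) = false := by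
  have hev : Even (p.edges.countP (fun e => v ∈ e)) := (hp.even_countP_edges_iff v).2 (by simp)
  obtain ⟨a', b', c', h', hab, hac, hbc⟩ := inc_len v
  rw [h] at h'
  simp only [List.cons.injEq, and_true] at h'
  obtain ⟨rfl, rfl, rfl⟩ := h'
  have hc : p.edges.countP (fun e => v ∈ e) =
      ((({a, b, c} : Finset (Fin 15)).filter (fun k => ed k ∈ p.edges)).image ed).card := by
    rw [List.countP_eq_length_filter, ← List.toFinset_card_of_nodup (hp.edges_nodup.filter _)]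
    congr 1
    ext e
    simp only [List.mem_toFinset, List.mem_filter, decide_eq_true_eq, Finset.mem_image, Finset.mem_filter,
      Finset.mem_insert, Finset.mem_singleton]
    constructor
    · rintro ⟨h1, h2⟩
      have h3 := p.edges_subset_edgeSet h1
      induction e using Sym2.ind with
      | _ s t =>
        obtain ⟨k, hk⟩ := adj_ed s t h3
        rw [hk] at h1 h2 ⊢
        have := (inc_spec v k).1 h2
        rw [h] at this
        exact ⟨k, ⟨by simpa using this, h1⟩, rfl⟩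
    · rintro ⟨k, ⟨h1, h2⟩, rfl⟩
      refine ⟨h2, (inc_spec v k).2 ?_⟩
      rw [h]; simpa using h1
  rw [hc, Finset.card_image_of_injective _ ed_inj, Finset.card_filter,
    Finset.sum_insert (by simp [hab, hac]), Finset.sum_insert (by simp [hbc]), Finset.sum_singleton] at hev
  by_cases h1 : ed a ∈ p.edges <;> by_cases h2 : ed b ∈ p.edges <;> by_cases h3 : ed c ∈ p.edges <;>
    simp [h1, h2, h3] at hev ⊢ <;> revert hev <;> decide

lemma no_cover {n : ℕ} (x : Fin n → Fin 10) (p : ∀ i, G.Walk (x i) (x i)) (hp : ∀ i, (p i).IsCycle)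
    (hs : ∀ e : Fin 15, ∑ i, I (decide (ed e ∈ (p i).edges)) = (w0 (A e) (B e) : ℤ)) : False := by
  let b : Fin 15 → Fin n → Bool := fun e i => decide (ed e ∈ (p i).edges)
  have s : ∀ e, ∑ i, I (b e i) = (w0 (A e) (B e) : ℤ) := hs
  have s0 : ∑ i, I (b 0 i) = 3 := s 0
  have s1 : ∑ i, I (b 1 i) = 3 := s 1
  have s2 : ∑ i, I (b 2 i) = 3 := s 2
  have s3 : ∑ i, I (b 3 i) = 3 := s 3
  have s4 : ∑ i, I (b 4 i) = 3 := s 4
  have s5 : ∑ i, I (b 5 i) = 3 := s 5
  have s6 : ∑ i, I (b 6 i) = 3 := s 6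
  have s7 : ∑ i, I (b 7 i) = 3 := s 7
  have s8 : ∑ i, I (b 8 i) = 3 := s 8
  have s9 : ∑ i, I (b 9 i) = 3 := s 9
  have s10 : ∑ i, I (b 10 i) = 6 := s 10
  have s11 : ∑ i, I (b 11 i) = 6 := s 11
  have s12 : ∑ i, I (b 12 i) = 6 := s 12
  have s13 : ∑ i, I (b 13 i) = 6 := s 13
  have s14 : ∑ i, I (b 14 i) = 6 := s 14
  have t := fun i => (hp i).isCircuit.isTrail
  have h := key (fun j => (2) * I (b 0 j) + (2) * I (b 1 j) + (2) * I (b 2 j) + (2) * I (b 3 j) + (2) * I (b 4 j) + (2) * I (b 5 j) + (2) * I (b 6 j) + (2) * I (b 7 j) + (2) * I (b 8 j) + (2) * I (b 9 j) + (-2) * I (b 10 j) + (-2) * I (b 11 j) + (-2) * I (b 12 j) + (-2) * I (b 13 j) + (-2) * I (b 14 j))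
    (fun j => I (b 10 j) + I (b 11 j) + I (b 12 j) + I (b 13 j) + I (b 14 j))
    (fun j => petA _ _ _ _ _ _ _ _ _ _ _ _ _ _ _
      (par_walk (p j) (t j) 0 _ _ _ rfl) (par_walk (p j) (t j) 1 _ _ _ rfl) (par_walk (p j) (t j) 2 _ _ _ rfl)
      (par_walk (p j) (t j) 3 _ _ _ rfl) (par_walk (p j) (t j) 4 _ _ _ rfl) (par_walk (p j) (t j) 5 _ _ _ rfl)
      (par_walk (p j) (t j) 6 _ _ _ rfl) (par_walk (p j) (t j) 7 _ _ _ rfl) (par_walk (p j) (t j) 8 _ _ _ rfl)
      (par_walk (p j) (t j) 9 _ _ _ rfl))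
    (by simp only [Finset.sum_add_distrib, ← Finset.mul_sum, s0, s1, s2, s3, s4, s5, s6, s7, s8, s9, s10, s11,
          s12, s13, s14]; norm_num)
  simp only [Finset.sum_add_distrib, s10, s11, s12, s13, s14] at h
  norm_num at h

end Pool.Agent.Lead.Goddyn
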