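import Mathlib

open Polynomial

namespace Pool.Agent.Lead.LogSp

variable {k : Type*} [Field k]

noncomputable def pA (i : k) : k[X] := X^5 + C i * X^4 + C i * X^3 - X^3 - C i * X^2 - X^2 + X + C i

noncomputable def pB (i : k) : k[X] := X^5 + C i * X^4 + C i * X^2 + C i * X + 1

noncomputable def pS (i : k) : k[X] := X^5 + C i * X^4 - X^3 + C i * X^2 - X^2 + C i * X + X

noncomputable def pT (i : k) : k[X] := X^5 + C i * X^4 + C i * X^3 - C i * X^2 + C i + 1

noncomputable def pN1 (i : k) : k[X] := X^6 - C i * X^4 + X^4 + C i * X^3 + X^3 + C i * X - 1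

noncomputable def pD1 (i : k) : k[X] := X^9 - C i * X^7 + X^7 - X^6 - C i * X^4 + C i * X^3 - X^3 + C i * X

noncomputable def pN2 (i : k) : k[X] := X^9 + C i * X^7 - X^7 - C i * X^3 + X^3 - X

noncomputable def pD2 (i : k) : k[X] := X^6 + C i * X^4 - X^4 - 1

lemma e1 (i : k) (hI : (C i : k[X])^2 + 1 = 0) (h3 : (3 : k[X]) = 0) :
    pN1 i * pD1 i = pB i * pS i * pT i := by
  simp only [pN1, pD1, pB, pS, pT]
  linear_combination (-3 * X^13 - C i * X^12 - 2 * X^12 - C i * X^11 - C i * X^10 - 5 * X^10 - 4 * C i * X^9 - 3 * X^9 - 2 * C i * X^8 - X^8 - C i * X^7 - 3 * X^7 - 4 * C i * X^6 - 5 * X^6 - C i * X^5 - 7 * X^5 + 3 * X^4 - 2 * C i * X^3 - X^3 - C i * X^2 - 2 * X^2 - X) * hI + (-C i * X^14 - C i * X^13 + 2 * X^13 + C i * X^12 + X^12 + X^10 + C i * X^8 + X^8 + C i * X^7 + X^7 + C i * X^6 + X^6 + 2 * X^5 - X^4 + C i * X^3 + X^3 + X^2 - C i * X) * h3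

lemma e2 (i : k) (hI : (C i : k[X])^2 + 1 = 0) (h3 : (3 : k[X]) = 0) :
    pN2 i * pD2 i = pA i * pS i * pT i := by
  simp only [pN2, pD2, pA, pS, pT]
  linear_combination (-3 * X^13 - C i * X^12 - 4 * X^12 - 2 * C i * X^11 + 4 * X^11 + 3 * X^10 - C i * X^9 - 5 * X^9 - 4 * C i * X^8 - 5 * X^8 + C i * X^7 + 3 * X^7 + C i * X^6 + 3 * X^6 - 5 * C i * X^5 - 7 * X^5 - C i * X^4 - 2 * X^4 + 2 * C i * X^3 + 4 * X^3 - C i * X^2 - X^2 - C i * X - 2 * X) * hI + (-C i * X^14 + X^13 + 2 * C i * X^12 + 2 * X^12 + 2 * C i * X^11 - 2 * X^11 - 2 * C i * X^10 - 2 * X^10 - 3 * C i * X^9 + 2 * X^9 + 3 * C i * X^8 + 3 * X^8 + 3 * C i * X^7 - X^7 - C i * X^6 - 2 * X^6 - C i * X^5 + 2 * X^5 + C i * X^4 + X^4 + C i * X^3 - X^3 + X) * h3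

lemma dpN1 (i : k) : derivative (pN1 i) = 6 * X^5 - 4 * C i * X^3 + 4 * X^3 + 3 * C i * X^2 + 3 * X^2 + C i := by
  simp only [pN1, derivative_add, derivative_sub, derivative_mul, derivative_C, derivative_X_pow, derivative_X, derivative_one, map_natCast]
  push_cast
  ring

lemma dpD1 (i : k) : derivative (pD1 i) = 9 * X^8 - 7 * C i * X^6 + 7 * X^6 - 6 * X^5 - 4 * C i * X^3 + 3 * C i * X^2 - 3 * X^2 + C i := by
  simp only [pD1, derivative_add, derivative_sub, derivative_mul, derivative_C, derivative_X_pow, derivative_X, derivative_one, map_natCast]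
  push_cast
  ring

lemma dpN2 (i : k) : derivative (pN2 i) = 9 * X^8 + 7 * C i * X^6 - 7 * X^6 - 3 * C i * X^2 + 3 * X^2 - 1 := by
  simp only [pN2, derivative_add, derivative_sub, derivative_mul, derivative_C, derivative_X_pow, derivative_X, derivative_one, map_natCast]
  push_cast
  ring

lemma dpD2 (i : k) : derivative (pD2 i) = 6 * X^5 + 4 * C i * X^3 - 4 * X^3 := by
  simp only [pD2, derivative_add, derivative_sub, derivative_mul, derivative_C, derivative_X_pow, derivative_X, derivative_one, map_natCast]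
  push_cast
  ring

lemma e3 (i : k) (hI : (C i : k[X])^2 + 1 = 0) (h3 : (3 : k[X]) = 0) :
    derivative (pN1 i) * pD1 i - pN1 i * derivative (pD1 i) = C i := by
  rw [dpN1, dpD1]
  simp only [pN1, pD1]
  linear_combination (-3 * X^10 + 4 * X^9 + 6 * X^7) * hI + (-X^14 + 2 * C i * X^12 - 2 * X^12 - 2 * C i * X^11 - 2 * X^11 + 2 * C i * X^10 - 4 * C i * X^9 - 2 * X^9 + 2 * C i * X^8 + 3 * X^8 - 2 * C i * X^7 - 2 * X^7 + 2 * C i * X^6 + 2 * X^6 - 2 * X^5 + C i * X^4 + C i * X^2 - X^2) * h3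

lemma e4 (i : k) (hI : (C i : k[X])^2 + 1 = 0) (h3 : (3 : k[X]) = 0) :
    derivative (pN2 i) * pD2 i - pN2 i * derivative (pD2 i) = 1 := by
  rw [dpN2, dpD2]
  simp only [pN2, pD2]
  linear_combination (3 * X^10 + X^6) * hI + (X^14 + 2 * C i * X^12 - 2 * X^12 - 2 * C i * X^10 + C i * X^8 - 4 * X^8 - 3 * C i * X^6 + 4 * X^6 + C i * X^4 - X^4 + C i * X^2 - X^2) * h3

lemma e5 (i : k) (hI : (C i : k[X])^2 + 1 = 0) (h3 : (3 : k[X]) = 0) :
    (C i) * pA i + (1) * pB i = (C i + 1) * pS i := by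
  simp only [pA, pB, pS]
  linear_combination (X^3 - 2 * X^2 - X + 1) * hI + (X^2) * h3

lemma e6 (i : k) (hI : (C i : k[X])^2 + 1 = 0) (h3 : (3 : k[X]) = 0) :
    (C i) * pA i - (1) * pB i = (C i - 1) * pT i := by
  simp only [pA, pB, pT]
  linear_combination (0) * hI + (-C i * X^2) * h3

lemma mA (i : k) : (pA i).Monic ∧ (pA i).natDegree = 5 := by
  unfold pA; exact ⟨by monicity!, by compute_degree!⟩
lemma mB (i : k) : (pB i).Monic ∧ (pB i).natDegree = 5 := by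
  unfold pB; exact ⟨by monicity!, by compute_degree!⟩
lemma mS (i : k) : (pS i).Monic ∧ (pS i).natDegree = 5 := by
  unfold pS; exact ⟨by monicity!, by compute_degree!⟩
lemma mT (i : k) : (pT i).Monic ∧ (pT i).natDegree = 5 := by
  unfold pT; exact ⟨by monicity!, by compute_degree!⟩

end Pool.Agent.Lead.LogSp
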