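import Mathlib

set_option autoImplicit false

namespace Pool.Agent.Lead.NearAP

lemma pow_mod_six (e : ℕ) : 2 ^ (e + 1) % 6 = 2 ∨ 2 ^ (e + 1) % 6 = 4 := by
  induction e with
  | zero => simp
  | succ e ih => rw [pow_succ]; omega

/-- two numbers in the same class at scale r cannot differ by about 2 ^ j -/
lemma sep (r e a1 a2 w : ℕ) (hw : w ≤ 2 ^ r) (h1 : a1 + 2 ^ (r + (e + 1)) ≤ a2 + w)
    (h2 : a2 ≤ a1 + 2 ^ (r + (e + 1)) + w) (hc : a1 / 2 ^ r % 6 = a2 / 2 ^ r % 6) : False := by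
  have hp : 0 < 2 ^ r := by positivity
  have hm := pow_mod_six e
  rw [pow_add] at h1 h2
  set P := 2 ^ r with hP
  set Q := 2 ^ (e + 1) with hQ
  have u1 : a2 / P ≤ a1 / P + Q + 1 := by
    have : a2 ≤ a1 + P * (Q + 1) := by nlinarith
    calc a2 / P ≤ (a1 + P * (Q + 1)) / P := Nat.div_le_div_right this
      _ = a1 / P + (Q + 1) := Nat.add_mul_div_left _ _ hp
      _ = _ := by ring
  have u2 : a1 / P + Q ≤ a2 / P + 1 := by
    have : a1 + P * Q ≤ a2 + P * 1 := by nlinarith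
    calc a1 / P + Q = (a1 + P * Q) / P := (Nat.add_mul_div_left _ _ hp).symm
      _ ≤ (a2 + P * 1) / P := Nat.div_le_div_right this
      _ = a2 / P + 1 := Nat.add_mul_div_left _ _ hp
  omega

def cls (M : ℕ) (a : ℕ) : Fin (M + 1) → Fin 6 :=
  fun i => ⟨a / 2 ^ (2 ^ M - 2 ^ (i : ℕ)) % 6, Nat.mod_lt _ (by norm_num)⟩

lemma no_pair (M j w b a1 a2 : ℕ) (hw : w * 2 ^ (2 ^ M) < (2 ^ j) ^ 2) (ha2 : a2 ≤ 2 ^ (2 ^ M))
    (h1 : b + 1 * 2 ^ j ≤ a1 ∧ a1 ≤ b + 1 * 2 ^ j + w) (h2 : b + 2 * 2 ^ j ≤ a2 ∧ a2 ≤ b + 2 * 2 ^ j + w)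
    (hc : cls M a1 = cls M a2) : False := by
  set L := 2 ^ M with hL
  have hj : j < L := by
    have : 2 ^ (j + 1) ≤ 2 ^ L := by rw [pow_succ]; omega
    have := (Nat.pow_le_pow_iff_right (by norm_num : 1 < 2)).1 this
    omega
  rcases Nat.eq_zero_or_pos j with rfl | hj0
  · have hw0 : w = 0 := by
      by_contra h
      have : 0 < w * 2 ^ L := Nat.mul_pos (Nat.pos_of_ne_zero h) (by positivity)
      simp at hw; omega
    have h3 := congrArg Fin.val (congrFun hc (Fin.last M))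
    simp [cls] at h3
    simp at h1 h2
    omega
  · set k := L - j with hk
    have hk1 : 1 ≤ k := by omega
    have hkL : k < 2 ^ M := by omega
    set i := Nat.log 2 k + 1 with hi
    have hi1 : k < 2 ^ i := Nat.lt_pow_succ_log_self (by norm_num) k
    have hi2 : 2 ^ i ≤ 2 * k := by
      have := Nat.pow_log_le_self 2 (by omega : k ≠ 0)
      rw [hi, pow_succ]; omega
    have hiM : i ≤ M := by
      have : Nat.log 2 k < M := Nat.log_lt_of_lt_pow (by omega) hkL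
      omega
    have hiL : 2 ^ i ≤ L := Nat.pow_le_pow_right (by norm_num) hiM
    have h3 := congrArg Fin.val (congrFun hc ⟨i, by omega⟩)
    simp only [cls] at h3
    set r := 2 ^ M - 2 ^ i with hr
    have hrj : r + 1 ≤ j := by omega
    obtain ⟨e, he⟩ : ∃ e, j = r + (e + 1) := ⟨j - r - 1, by omega⟩
    have hwr : w ≤ 2 ^ r := by
      by_contra h
      push Not at h
      have a1 : 2 ^ r * 2 ^ L ≤ w * 2 ^ L := Nat.mul_le_mul_right _ h.le
      have a2 : (2 ^ j) ^ 2 ≤ 2 ^ r * 2 ^ L := by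
        rw [← pow_mul, ← pow_add]
        exact Nat.pow_le_pow_right (by norm_num) (by omega)
      omega
    refine sep r e a1 a2 w hwr ?_ ?_ h3
    · rw [← he]; omega
    · rw [← he]; omega

lemma growth (M : ℕ) (hM : 9 ≤ M) :
    (6 : ℝ) ^ (M + 1) ≤ Real.log ((2 ^ (2 ^ M) : ℕ) : ℝ) ^ Real.log (Real.log ((2 ^ (2 ^ M) : ℕ) : ℝ)) := by
  have l2 : (0.69 : ℝ) < Real.log 2 := by have := Real.log_two_gt_d9; linarith
  have l2' : Real.log 2 < 0.7 := by have := Real.log_two_lt_d9; linarith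
  have e1 : Real.log ((2 ^ (2 ^ M) : ℕ) : ℝ) = 2 ^ M * Real.log 2 := by
    push_cast; rw [Real.log_pow]; push_cast; ring
  rw [e1]
  have hpos : (0 : ℝ) < 2 ^ M * Real.log 2 := by positivity
  set y := Real.log (2 ^ M * Real.log 2) with hy
  have hMr : (9 : ℝ) ≤ M := by exact_mod_cast hM
  have hy1 : (M : ℝ) / 2 ≤ y := by
    rw [hy, Real.log_mul (by positivity) (by positivity), Real.log_pow]
    have : Real.log (1 / 2) ≤ Real.log (Real.log 2) := Real.log_le_log (by norm_num) (by linarith)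
    rw [one_div, Real.log_inv] at this
    nlinarith
  rw [Real.rpow_def_of_pos hpos, ← hy]
  have h6 : (6 : ℝ) ≤ Real.exp 2 := by
    have := Real.exp_one_gt_d9
    have e : Real.exp 2 = Real.exp 1 * Real.exp 1 := by rw [← Real.exp_add]; norm_num
    nlinarith
  calc (6 : ℝ) ^ (M + 1) ≤ (Real.exp 2) ^ (M + 1) := pow_le_pow_left₀ (by norm_num) h6 _
    _ = Real.exp (((M + 1 : ℕ) : ℝ) * 2) := by rw [Real.exp_nat_mul]
    _ ≤ Real.exp (y * y) := by
      apply Real.exp_le_exp.2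
      push_cast
      nlinarith

lemma big_class (M : ℕ) : ∃ c : Fin (M + 1) → Fin 6,
    ((2 ^ (2 ^ M) : ℕ) : ℝ) ≤ 6 ^ (M + 1) * (((Finset.Icc 1 (2 ^ (2 ^ M))).filter (fun a => cls M a = c)).card : ℝ) := by
  by_contra h
  push Not at h
  have hs := Finset.card_eq_sum_card_fiberwise (s := Finset.Icc 1 (2 ^ (2 ^ M))) (t := Finset.univ)
    (f := cls M) (fun _ _ => Finset.mem_univ _)
  have h1 : ∑ c : Fin (M + 1) → Fin 6, 6 ^ (M + 1) * (((Finset.Icc 1 (2 ^ (2 ^ M))).filter (fun a => cls M a = c)).card : ℝ)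
      < ∑ _c : Fin (M + 1) → Fin 6, ((2 ^ (2 ^ M) : ℕ) : ℝ) :=
    Finset.sum_lt_sum_of_nonempty Finset.univ_nonempty (fun c _ => h c)
  rw [← Finset.mul_sum, ← Nat.cast_sum, ← hs] at h1
  simp at h1

end Pool.Agent.Lead.NearAP
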