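import Pool.Agent.H18.RookE

namespace Pool.Agent.Lead.RookAll

open Pool.Agent.H18.RookB Pool.Agent.H18.RookD

theorem all (k : ℕ) (hk : 2 ≤ k) :
    ((2 * k - 1) * ((k : ℝ) ^ 2 + 1) / 2 + (k ^ 2 / 6 - 3 * k) ≤ NS k ∧
      (NSminus k : ℝ) ≤ (2 * k - 1) * ((k : ℝ) ^ 2 + 1) / 2 - (k ^ 2 / 6 - 3 * k) ∧
      (k : ℝ) ^ 4 - 1 ≤ 3 * (NSsp k : ℝ) ^ 2 ∧ 2 * (k : ℝ) ^ 2 / 3 - 30 * k ≤ NSsp k) ∧
    (8 ≤ k → (NS k : ℝ) ≤ (2 * k - 1) * ((k : ℝ) ^ 2 + 1) / 2 + (k ^ 2 / 4 + 8 * k) ∧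
      (2 * k - 1) * ((k : ℝ) ^ 2 + 1) / 2 - (k ^ 2 / 4 + 8 * k) ≤ NSminus k) ∧
    (8 ≤ k → 4 ∣ k → (NSsp k : ℝ) ≤ 7 * (k : ℝ) ^ 2 / 8 + 2 * k + 2) := by
  have hk0 : 0 < k := by omega
  refine ⟨⟨?_, ?_, ?_⟩, fun h8 => ?_, fun h8 h4 => ?_⟩
  · obtain ⟨f, hf, e⟩ := NS_mem k
    rw [← e]; exact (lab_bounds hk hf).1
  · obtain ⟨f, hf, e⟩ := NSminus_mem hk
    rw [← e]; exact (lab_bounds hk hf).2.1
  · obtain ⟨f, hf, e⟩ := NSsp_mem k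
    rw [← e, Nat.cast_sub (min_le_max hk0 f)]
    exact (lab_bounds hk hf).2.2
  · obtain ⟨f, hf, hb⟩ := good h8
    constructor
    · obtain ⟨v, hv⟩ := nsMax_mem hk0 f
      have h1 : NS k ≤ nsMax f := Nat.sInf_le ⟨f, hf, rfl⟩
      have h2 : (NS k : ℝ) ≤ nsum f v := by rw [hv]; exact_mod_cast h1
      exact h2.trans (hb v)
    · obtain ⟨v, hv⟩ := nsMin_mem hk0 (fun v => k ^ 2 + 1 - f v)
      have h1 : nsMin (fun v => k ^ 2 + 1 - f v) ≤ NSminus k :=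
        le_csSup (bddMin hk) ⟨_, isLab_compl hf, rfl⟩
      have h2 : (nsum (fun v => k ^ 2 + 1 - f v) v : ℝ) ≤ NSminus k := by
        rw [hv]; exact_mod_cast h1
      rw [nsum_compl hf] at h2
      linarith [hb v]
  · obtain ⟨M, rfl⟩ := h4
    have h1 := Pool.Agent.H18.RookE.spread (show 2 ≤ M by omega)
    have h2 : (NSsp (4 * M) : ℝ) ≤ 14 * ((M : ℝ) * M) + 8 * M + 2 := by exact_mod_cast h1
    push_cast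
    nlinarith

end Pool.Agent.Lead.RookAll
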