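import Pool.Agent.Lead.TC1

set_option autoImplicit false

namespace Pool.Agent.Lead.TC

def Prem (X : ℕ → Prop) (i o : ℕ) : Prop :=
  (o / 36 = 1 → 1 ≤ i ∧ X (var (i - 1) (o % 36 / 6) (o % 6))) ∧
    (o / 36 ≠ 0 → o / 36 ≠ 1 → X (var i (o % 36 / 6) (o % 6)))

def Closed (X : ℕ → Prop) : Prop :=
  ∀ o : ℕ → ℕ, (∀ i < 6, Prem X i (o i)) → ∃ t : ℕ → ℕ, (∀ j, t j < 6) ∧
    (∀ i < 6, ∀ j, blk i (o i) j (t j) = false) ∧
      ∀ s ≤ 3, t s ≠ t (s + 1) → X (var s (t s) (t (s + 1)))

theorem mem_six {x : ℕ} (h : x < 6) : x ∈ six := by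
  simp only [six, List.mem_cons, List.not_mem_nil, or_false]; omega

theorem leaf_sound {X : ℕ → Prop} (H : Closed X) {pos neg m : ℕ} (h : leafOK pos neg m = true)
    (hp : ∀ v, pos.testBit v = true → X v) (hn : ∀ v, neg.testBit v = true → ¬ X v) : False := by
  simp only [leafOK, Bool.and_eq_true, List.all_eq_true, Bool.or_eq_true] at h
  obtain ⟨h1, h2⟩ := h
  obtain ⟨t, t6, tb, ts⟩ := H (dg m) (fun i hi => by
    have := h1 i (mem_six hi)
    unfold prem at this
    constructor
    · intro e
      rw [if_neg (by omega), if_pos e] at this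
      simp only [Bool.and_eq_true, decide_eq_true_eq] at this
      exact ⟨this.1, hp _ this.2⟩
    · intro e0 e1
      rw [if_neg e0, if_neg e1] at this
      exact hp _ this)
  have hb : ∀ j ≤ 3, bl m j (t (j + 1)) = true → False := by
    intro j hj e
    simp only [bl, tb j (by omega), tb (j + 1) (by omega), tb (j + 2) (by omega)] at e
    simp at e
  have hs : ∀ s ≤ 3, st neg s (t s) (t (s + 1)) = true → False := by
    intro s hs e
    simp only [st, Bool.and_eq_true, bne_iff_ne] at e
    exact hn _ e.2 (ts s hs e.1)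
  rcases h2 (t 1) (mem_six (t6 _)) with e | h3
  · exact hb 0 (by omega) e
  rcases h3 (t 2) (mem_six (t6 _)) with (e | e) | h4
  · exact hb 1 (by omega) e
  · exact hs 1 (by omega) e
  rcases h4 (t 3) (mem_six (t6 _)) with (e | e) | h5
  · exact hb 2 (by omega) e
  · exact hs 2 (by omega) e
  rcases h5 (t 4) (mem_six (t6 _)) with e | e
  · exact hb 3 (by omega) e
  · exact hs 3 (by omega) e

theorem sound {X : ℕ → Prop} (H : Closed X) : ∀ (T : Tr) (pos neg : ℕ), check T pos neg = true →
    (∀ v, pos.testBit v = true → X v) → (∀ v, neg.testBit v = true → ¬ X v) → False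
  | .L m, pos, neg, h, hp, hn => leaf_sound H h hp hn
  | .N v l r, pos, neg, h, hp, hn => by
    simp only [check, Bool.and_eq_true] at h
    by_cases hv : X v
    · refine sound H l _ _ h.1 (fun w hw => ?_) hn
      rw [Nat.testBit_or, Bool.or_eq_true, Nat.testBit_two_pow] at hw
      rcases hw with hw | hw
      · exact hp w hw
      · rw [decide_eq_true_eq] at hw; exact hw ▸ hv
    · refine sound H r _ _ h.2 hp (fun w hw => ?_)
      rw [Nat.testBit_or, Bool.or_eq_true, Nat.testBit_two_pow] at hw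
      rcases hw with hw | hw
      · exact hn w hw
      · rw [decide_eq_true_eq] at hw; exact hw ▸ hv

theorem not_closed (X : ℕ → Prop) : ¬ Closed X := fun H =>
  sound H cert 0 0 cert_ok (by simp) (by simp)

theorem tree_of_par {V : Type} [Finite V] (p : V → V) (r : V → ℕ) (o : V) (ho : r o = 0)
    (h0 : ∀ v, r v = 0 → v = o) (hp : ∀ v, r v ≠ 0 → r (p v) < r v) :
    (SimpleGraph.fromRel fun u v => r u ≠ 0 ∧ p u = v).IsTree := by
  classical
  have adj : ∀ v, r v ≠ 0 → (SimpleGraph.fromRel fun u v => r u ≠ 0 ∧ p u = v).Adj v (p v) := by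
    intro v hv
    rw [SimpleGraph.fromRel_adj]
    refine ⟨fun e => ?_, Or.inl ⟨hv, rfl⟩⟩
    have := hp v hv
    rw [← e] at this; omega
  rw [SimpleGraph.isTree_iff_connected_and_card]
  constructor
  · have key : ∀ n v, r v = n → (SimpleGraph.fromRel fun u v => r u ≠ 0 ∧ p u = v).Reachable v o := by
      intro n
      induction n using Nat.strong_induction_on with
      | _ n ih =>
        intro v hv
        by_cases z : r v = 0
        · rw [h0 v z]
        · exact (adj v z).reachable.trans (ih _ (hv ▸ hp v z) _ rfl)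
    haveI : Nonempty V := ⟨o⟩
    exact ⟨fun u v => (key _ u rfl).trans (key _ v rfl).symm⟩
  · have ne : ∀ v : {v // v ≠ o}, r v.1 ≠ 0 := fun v e => v.2 (h0 _ e)
    let f : {v // v ≠ o} → (SimpleGraph.fromRel fun u v => r u ≠ 0 ∧ p u = v).edgeSet :=
      fun v => ⟨s(v.1, p v.1), adj _ (ne v)⟩
    have bij : Function.Bijective f := by
      constructor
      · intro u v e
        have e' : s(u.1, p u.1) = s(v.1, p v.1) := congrArg Subtype.val e
        rcases Sym2.eq_iff.1 e' with ⟨a, -⟩ | ⟨a, b⟩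
        · exact Subtype.ext a
        · have h1 := hp _ (ne u)
          have h2 := hp _ (ne v)
          rw [b] at h1; rw [← a] at h2; omega
      · rintro ⟨e, he⟩
        induction e using Sym2.ind with
        | _ u v =>
          rw [SimpleGraph.mem_edgeSet, SimpleGraph.fromRel_adj] at he
          rcases he.2 with ⟨a, b⟩ | ⟨a, b⟩
          · exact ⟨⟨u, fun e => a (e ▸ ho)⟩, Subtype.ext (by simp [f, b])⟩
          · exact ⟨⟨v, fun e => a (e ▸ ho)⟩, Subtype.ext (by simp [f, b, Sym2.eq_swap])⟩
    rw [← Nat.card_congr (Equiv.ofBijective f bij), ← Nat.card_congr (Equiv.optionSubtypeNe o),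
      Finite.card_option]

end Pool.Agent.Lead.TC
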