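import Mathlib

set_option autoImplicit false

namespace Pool.Agent.Lead.TCDefs

variable {V : Type}

/-- The snapshots `G 1, ..., G T`, with the edgeless graph at every other time. -/
def snap (T : ℕ) (G : ℕ → SimpleGraph V) (i : ℕ) : SimpleGraph V :=
  if 1 ≤ i ∧ i ≤ T then G i else ⊥

/-- Two colourings are compatible on the graph `H`. -/
def Compat {k : ℕ} (H : SimpleGraph V) (c c' : V → Fin k) : Prop :=
  ∀ u v, H.Adj u v → c u ≠ c v ∧ c' u ≠ c' v ∧ c u ≠ c' v ∧ c' u ≠ c v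

/-- `c 1, ..., c T` is a temporal `k`-colouring of `G 1, ..., G T`. -/
def IsTemporalColouring (T : ℕ) (G : ℕ → SimpleGraph V) (k : ℕ) (c : ℕ → V → Fin k) : Prop :=
  (∀ j, 1 ≤ j → j ≤ T → ∀ u v,
    (snap T G (j - 1) ⊔ snap T G j ⊔ snap T G (j + 1)).Adj u v → c j u ≠ c j v) ∧
  ∀ j, 1 ≤ j → j + 1 ≤ T → Compat (snap T G j ⊔ snap T G (j + 1)) (c j) (c (j + 1))

/-- The temporal chromatic number: the least `k` with a temporal `k`-colouring. -/
noncomputable def chiT (T : ℕ) (G : ℕ → SimpleGraph V) : ℕ :=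
  sInf {k | ∃ c : ℕ → V → Fin k, IsTemporalColouring T G k c}

end Pool.Agent.Lead.TCDefs
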