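import Pool.Agent.Lead.TC2
import Pool.Agent.Lead.TCDefs

set_option autoImplicit false

namespace Pool.Agent.Lead.TC

open Pool.Agent.Lead.TCDefs

def W : ℕ → Type
  | 0 => Fin 6
  | m + 1 => W m ⊕ (Fin 10 → W m)

theorem finW : ∀ m, Finite (W m)
  | 0 => inferInstanceAs (Finite (Fin 6))
  | m + 1 => by
    haveI := finW m
    exact inferInstanceAs (Finite (W m ⊕ (Fin 10 → W m)))

def par0 (i : ℕ) : Fin 6 → Fin 6 :=
  if i % 3 = 0 then ![0, 0, 5, 4, 2, 1] else if i % 3 = 1 then ![2, 1, 1, 0, 5, 3]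
  else ![4, 3, 2, 2, 1, 0]

def rk0 (i : ℕ) : Fin 6 → ℕ :=
  if i % 3 = 0 then ![0, 1, 3, 5, 4, 2] else if i % 3 = 1 then ![2, 0, 1, 3, 5, 4]
  else ![4, 2, 0, 1, 3, 5]

def root0 (i : ℕ) : Fin 6 := if i % 3 = 0 then 0 else if i % 3 = 1 then 1 else 2

def par : (m : ℕ) → ℕ → W m → W m
  | 0, i, v => par0 i v
  | m + 1, i, Sum.inl v => Sum.inl (par m i v)
  | _ + 1, i, Sum.inr f => Sum.inl (f ⟨i % 10, Nat.mod_lt _ (by norm_num)⟩)

def rk : (m : ℕ) → ℕ → W m → ℕ
  | 0, i, v => rk0 i v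
  | m + 1, i, Sum.inl v => rk m i v
  | m + 1, _, Sum.inr _ => 6 + m

def root : (m : ℕ) → ℕ → W m
  | 0, i => root0 i
  | m + 1, i => Sum.inl (root m i)

theorem base (i : ℕ) : rk0 i (root0 i) = 0 ∧ ∀ v : Fin 6, rk0 i v < 6 ∧ (rk0 i v = 0 → v = root0 i) ∧
    (rk0 i v ≠ 0 → rk0 i (par0 i v) < rk0 i v) := by
  unfold rk0 par0 root0
  split_ifs <;> decide

theorem props (i : ℕ) : ∀ m, rk m i (root m i) = 0 ∧ ∀ v : W m, rk m i v < 6 + m ∧
    (rk m i v = 0 → v = root m i) ∧ (rk m i v ≠ 0 → rk m i (par m i v) < rk m i v)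
  | 0 => base i
  | m + 1 => by
    obtain ⟨a, b⟩ := props i m
    refine ⟨a, fun v => ?_⟩
    rcases v with v | f
    · obtain ⟨b1, b2, b3⟩ := b v
      refine ⟨?_, fun e => congrArg Sum.inl (b2 e), b3⟩
      show rk m i v < _
      omega
    · refine ⟨?_, fun e => ?_, fun _ => (b _).1⟩
      · show 6 + m < _
        omega
      · have e' : 6 + m = 0 := e
        omega

def G (m i : ℕ) : SimpleGraph (W m) :=
  SimpleGraph.fromRel fun u v => rk m i u ≠ 0 ∧ par m i u = v

theorem G_tree (m i : ℕ) : (G m i).IsTree :=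
  haveI := finW m
  tree_of_par (par m i) (rk m i) (root m i) (props i m).1 (fun v => ((props i m).2 v).2.1)
    (fun v => ((props i m).2 v).2.2)

def Val (m : ℕ) (c : ℕ → W m → Fin 6) : Prop :=
  ∀ i, 1 ≤ i → i ≤ 8 → ∀ u, rk m i u ≠ 0 → ∀ j j', 1 ≤ j → j ≤ 8 → 1 ≤ j' → j' ≤ 8 →
    j ≤ i + 1 → i ≤ j + 1 → j' ≤ i + 1 → i ≤ j' + 1 → j ≤ j' + 1 → j' ≤ j + 1 →
      c j u ≠ c j' (par m i u)

theorem val_of {m : ℕ} {c : ℕ → W m → Fin 6} (h : IsTemporalColouring 8 (G m) 6 c) : Val m c := by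
  intro i i1 i8 u hu j j' j1 j8 k1 k8 a1 a2 a3 a4 a5 a6
  have adj : (snap 8 (G m) i).Adj u (par m i u) := by
    rw [snap, if_pos ⟨i1, i8⟩, G, SimpleGraph.fromRel_adj]
    refine ⟨fun e => ?_, Or.inl ⟨hu, rfl⟩⟩
    have := ((props i m).2 u).2.2 hu
    rw [← e] at this; omega
  rcases (by omega : j' = j ∨ j' = j + 1 ∨ j = j' + 1) with rfl | rfl | rfl
  · apply h.1 j' j1 j8
    simp only [SimpleGraph.sup_adj]
    rcases (by omega : i = j' - 1 ∨ i = j' ∨ i = j' + 1) with rfl | rfl | rfl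
    · exact Or.inl (Or.inl adj)
    · exact Or.inl (Or.inr adj)
    · exact Or.inr adj
  · refine (h.2 j j1 k8 u _ ?_).2.2.1
    simp only [SimpleGraph.sup_adj]
    rcases (by omega : i = j ∨ i = j + 1) with rfl | rfl
    · exact Or.inl adj
    · exact Or.inr adj
  · refine (h.2 j' k1 j8 u _ ?_).2.2.2
    simp only [SimpleGraph.sup_adj]
    rcases (by omega : i = j' ∨ i = j' + 1) with rfl | rfl
    · exact Or.inl adj
    · exact Or.inr adj

theorem val_res {m : ℕ} {c : ℕ → W (m + 1) → Fin 6} (h : Val (m + 1) c) :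
    Val m fun j u => c j (Sum.inl u) := fun i i1 i8 u hu => h i i1 i8 (Sum.inl u) hu

theorem k6 : ∀ j < 8, 2 ≤ j → ∀ u v : Fin 6, u ≠ v → ∃ i < 9, 1 ≤ i ∧ j ≤ i + 1 ∧ i ≤ j + 1 ∧
    ((rk0 i u ≠ 0 ∧ par0 i u = v) ∨ (rk0 i v ≠ 0 ∧ par0 i v = u)) := by
  have key : ∀ j : Fin 8, ∀ u v : Fin 6, 2 ≤ j.val → u ≠ v → ∃ i : Fin 9, 1 ≤ i.val ∧
      j.val ≤ i.val + 1 ∧ i.val ≤ j.val + 1 ∧
      ((rk0 i u ≠ 0 ∧ par0 i u = v) ∨ (rk0 i v ≠ 0 ∧ par0 i v = u)) := by
    intro j u v
    revert j u v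
    exact of_decide_eq_true (inst := Fintype.decidableForallFintype) (by decide +kernel)
  intro j j8 j2 u v ne
  obtain ⟨i, hi⟩ := key ⟨j, j8⟩ u v j2 ne
  exact ⟨i.val, i.isLt, hi⟩

theorem full : ∀ (m : ℕ) (c : ℕ → W m → Fin 6), Val m c → ∀ j < 8, 2 ≤ j → ∀ a, ∃ v, c j v = a
  | 0, c, h, j, j8, j2 => by
    have inj : Function.Injective (fun v : Fin 6 => c j v) := by
      intro u v e
      by_contra ne
      obtain ⟨i, i9, i1, a1, a2, ⟨b1, b2⟩ | ⟨b1, b2⟩⟩ := k6 j j8 j2 u v ne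
      · refine h i i1 (by omega) u b1 j j (by omega) (by omega) (by omega) (by omega) a1 a2 a1 a2
          (by omega) (by omega) ?_
        have : par 0 i u = v := b2
        rw [this]; exact e
      · refine h i i1 (by omega) v b1 j j (by omega) (by omega) (by omega) (by omega) a1 a2 a1 a2
          (by omega) (by omega) ?_
        have : par 0 i v = u := b2
        rw [this]; exact e.symm
    exact Finite.injective_iff_surjective.1 inj
  | m + 1, c, h, j, j8, j2 => fun a => by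
    obtain ⟨v, hv⟩ := full m _ (val_res h) j j8 j2 a
    exact ⟨_, hv⟩

open Classical in
noncomputable def S {V : Type} (c : ℕ → V → Fin 6) : Finset (Fin 10 × Fin 6 × Fin 6) :=
  Finset.univ.filter fun x => ∃ u, c x.1 u = x.2.1 ∧ c (x.1 + 1) u = x.2.2

theorem var_dec (s a b : ℕ) (ha : a < 6) (hb : b < 6) : var s a b / 36 = s ∧
    ((var s a b % 36 / 6 = a ∧ var s a b % 6 = b) ∨ (var s a b % 36 / 6 = b ∧ var s a b % 6 = a)) := by
  unfold var
  rcases le_total a b with h | h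
  · rw [min_eq_left h, max_eq_right h]; omega
  · rw [min_eq_right h, max_eq_left h]; omega

theorem step {m : ℕ} {c : ℕ → W (m + 1) → Fin 6} (h : Val (m + 1) c)
    (hS : S c ⊆ S fun j (u : W m) => c j (Sum.inl u)) : False := by
  let d : ℕ → W m → ℕ := fun j u => (c j (Sum.inl u)).val
  let X : ℕ → Prop := fun v => ∃ u : W m,
    (d (v / 36 + 2) u = v % 36 / 6 ∧ d (v / 36 + 3) u = v % 6) ∨
      (d (v / 36 + 2) u = v % 6 ∧ d (v / 36 + 3) u = v % 36 / 6)
  have hX : ∀ s a b, a < 6 → b < 6 → (X (var s a b) ↔ ∃ u : W m,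
      (d (s + 2) u = a ∧ d (s + 3) u = b) ∨ (d (s + 2) u = b ∧ d (s + 3) u = a)) := by
    intro s a b ha hb
    obtain ⟨e1, ⟨e2, e3⟩ | ⟨e2, e3⟩⟩ := var_dec s a b ha hb
    · simp only [X, e1, e2, e3]
    · simp only [X, e1, e2, e3, or_comm]
  refine not_closed X fun o ho => ?_
  have ex : ∀ i, ∃ y : W m, i < 6 → ∀ j x, blk i (o i) j x = true → j ≤ i + 1 ∧ i ≤ j + 1 ∧
      ∃ j', j' ≤ i + 1 ∧ i ≤ j' + 1 ∧ j ≤ j' + 1 ∧ j' ≤ j + 1 ∧ d (j' + 2) y = x := by
    intro i
    by_cases hi : i < 6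
    swap
    · exact ⟨root m 0, fun e => absurd e hi⟩
    obtain ⟨p1, p2⟩ := ho i hi
    have a6 : o i % 36 / 6 < 6 := by omega
    have b6 : o i % 6 < 6 := by omega
    by_cases e0 : o i / 36 = 0
    · obtain ⟨y, hy⟩ := full m _ (val_res h) (i + 2) (by omega) (by omega) ⟨_, a6⟩
      refine ⟨y, fun _ j x e => ?_⟩
      simp only [blk, if_pos e0, Bool.and_eq_true, Bool.or_eq_true, beq_iff_eq] at e
      refine ⟨by omega, by omega, i, by omega, by omega, by omega, by omega, ?_⟩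
      rw [e.1]; exact congrArg Fin.val hy
    by_cases e1 : o i / 36 = 1
    · obtain ⟨i1, hx⟩ := p1 e1
      obtain ⟨y, hy⟩ := (hX _ _ _ a6 b6).1 hx
      refine ⟨y, fun _ j x e => ?_⟩
      simp only [blk, if_neg e0, if_pos e1, Bool.and_eq_true, Bool.or_eq_true, beq_iff_eq] at e
      refine ⟨by omega, by omega, ?_⟩
      have q : i - 1 + 3 = i + 2 := by omega
      rw [q] at hy
      by_cases z : d (i + 2) y = x
      · exact ⟨i, by omega, by omega, by omega, by omega, z⟩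
      · exact ⟨i - 1, by omega, by omega, by omega, by omega, by omega⟩
    · obtain ⟨y, hy⟩ := (hX _ _ _ a6 b6).1 (p2 e0 e1)
      refine ⟨y, fun _ j x e => ?_⟩
      simp only [blk, if_neg e0, if_neg e1, Bool.and_eq_true, Bool.or_eq_true, beq_iff_eq] at e
      refine ⟨by omega, by omega, ?_⟩
      by_cases z : d (i + 2) y = x
      · exact ⟨i, by omega, by omega, by omega, by omega, z⟩
      · exact ⟨i + 1, by omega, by omega, by omega, by omega, by
          have q : i + 1 + 2 = i + 3 := by omega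
          rw [q]; omega⟩
  choose y hy using ex
  let v : W (m + 1) := Sum.inr fun k : Fin 10 => y (k.val - 2)
  refine ⟨fun j => (c (j + 2) v).val, fun j => (c (j + 2) v).isLt, fun i hi j => ?_, fun s hs _ => ?_⟩
  · by_contra ne
    obtain ⟨a1, a2, j', a3, a4, a5, a6, e⟩ := hy i hi j _ (by simpa using ne)
    have hr : rk (m + 1) (i + 2) v ≠ 0 := by
      show 6 + m ≠ 0
      omega
    have hp : par (m + 1) (i + 2) v = Sum.inl (y i) := by
      show Sum.inl (y ((i + 2) % 10 - 2)) = _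
      rw [show (i + 2) % 10 - 2 = i by omega]
    have := h (i + 2) (by omega) (by omega) v hr (j + 2) (j' + 2) (by omega) (by omega) (by omega)
      (by omega) (by omega) (by omega) (by omega) (by omega) (by omega) (by omega)
    rw [hp] at this
    exact this (Fin.ext e.symm)
  · have mem : ((⟨s + 2, by omega⟩ : Fin 10), c (s + 2) v, c (s + 3) v) ∈ S c := by
      simp only [S, Finset.mem_filter, Finset.mem_univ, true_and]
      exact ⟨v, rfl, rfl⟩
    have := hS mem
    simp only [S, Finset.mem_filter, Finset.mem_univ, true_and] at this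
    obtain ⟨u, u1, u2⟩ := this
    exact (hX s _ _ (c (s + 2) v).isLt (c (s + 3) v).isLt).2
      ⟨u, Or.inl ⟨congrArg Fin.val u1, congrArg Fin.val u2⟩⟩

theorem grow : ∀ (m : ℕ) (c : ℕ → W m → Fin 6), Val m c → m ≤ (S c).card
  | 0, _, _ => Nat.zero_le _
  | m + 1, c, h => by
    have ih := grow m _ (val_res h)
    have sub : (S fun j (u : W m) => c j (Sum.inl u)) ⊆ S c := by
      intro x hx
      simp only [S, Finset.mem_filter, Finset.mem_univ, true_and] at hx ⊢
      obtain ⟨u, hu⟩ := hx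
      exact ⟨_, hu⟩
    have := Finset.card_lt_card (Finset.ssubset_def.2 ⟨sub, fun e => step h e⟩)
    omega

theorem no_six (m : ℕ) (hm : 360 < m) (c : ℕ → W m → Fin 6) : ¬ IsTemporalColouring 8 (G m) 6 c := by
  intro h
  have h1 := grow m c (val_of h)
  have h2 := Finset.card_le_univ (S c)
  simp only [Fintype.card_prod, Fintype.card_fin] at h2
  omega

theorem mono {V : Type} {T k l : ℕ} {H : ℕ → SimpleGraph V} (hkl : k ≤ l) {c : ℕ → V → Fin k}
    (h : IsTemporalColouring T H k c) :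
    IsTemporalColouring T H l fun j v => Fin.castLE hkl (c j v) := by
  have inj := Fin.castLE_injective hkl
  refine ⟨fun j a b u v e => inj.ne (h.1 j a b u v e), fun j a b u v e => ?_⟩
  obtain ⟨x1, x2, x3, x4⟩ := h.2 j a b u v e
  exact ⟨inj.ne x1, inj.ne x2, inj.ne x3, inj.ne x4⟩

theorem eight {V : Type} {T : ℕ} {H : ℕ → SimpleGraph V} (hH : ∀ i, (H i).IsTree) :
    ∃ c : ℕ → V → Fin 8, IsTemporalColouring T H 8 c := by
  have col : ∀ i, ∃ f : V → Fin 2, ∀ u v, (snap T H i).Adj u v → f u ≠ f v := by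
    intro i
    refine ⟨(hH i).coloringTwo, fun u v e => (hH i).coloringTwo.valid ?_⟩
    unfold snap at e
    split_ifs at e
    · exact e
    · exact absurd e (by simp)
  choose f hf using col
  let tm : ℕ → Fin 3 → ℕ := fun j r =>
    if (j - 1) % 3 = r.val then j - 1 else if j % 3 = r.val then j else j + 1
  let e : (Fin 3 → Fin 2) ≃ Fin 8 := Fintype.equivFinOfCardEq (by simp)
  have key : ∀ i j j' u v, 1 ≤ j → 1 ≤ j' → j ≤ i + 1 → i ≤ j + 1 → j' ≤ i + 1 → i ≤ j' + 1 →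
      (snap T H i).Adj u v → e (fun r => f (tm j r) u) ≠ e (fun r => f (tm j' r) v) := by
    intro i j j' u v a1 a2 a3 a4 a5 a6 adj eq
    have := congrFun (e.injective eq) ⟨i % 3, Nat.mod_lt _ (by norm_num)⟩
    have t1 : tm j ⟨i % 3, Nat.mod_lt _ (by norm_num)⟩ = i := by
      simp only [tm]; split_ifs <;> omega
    have t2 : tm j' ⟨i % 3, Nat.mod_lt _ (by norm_num)⟩ = i := by
      simp only [tm]; split_ifs <;> omega
    simp only [t1, t2] at this
    exact hf i u v adj this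
  refine ⟨fun j v => e fun r => f (tm j r) v, fun j a b u v adj => ?_, fun j a b u v adj => ?_⟩
  · simp only [SimpleGraph.sup_adj] at adj
    rcases adj with (adj | adj) | adj <;>
      exact key _ j j u v a a (by omega) (by omega) (by omega) (by omega) adj
  · simp only [SimpleGraph.sup_adj] at adj
    rcases adj with adj | adj <;>
      exact ⟨key _ j j u v a a (by omega) (by omega) (by omega) (by omega) adj,
        key _ (j + 1) (j + 1) u v (by omega) (by omega) (by omega) (by omega) (by omega) (by omega) adj,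
        key _ j (j + 1) u v a (by omega) (by omega) (by omega) (by omega) (by omega) adj,
        key _ (j + 1) j u v (by omega) a (by omega) (by omega) (by omega) (by omega) adj⟩

theorem main (m : ℕ) (hm : 360 < m) : chiT 8 (G m) = 7 ∨ chiT 8 (G m) = 8 := by
  have h8 : 8 ∈ {k | ∃ c : ℕ → W m → Fin k, IsTemporalColouring 8 (G m) k c} := eight (G_tree m)
  have le := Nat.sInf_le h8
  obtain ⟨c, hc⟩ := Nat.sInf_mem ⟨8, h8⟩
  by_contra ne
  have : chiT 8 (G m) ≤ 6 := by
    unfold chiT at ne ⊢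
    omega
  exact no_six m hm _ (mono this hc)

end Pool.Agent.Lead.TC
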